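import Pool.Agent.H36.KG.Hull

/-! # Restriction along surjections and coinduction from a corner -/

set_option autoImplicit false

universe u v

namespace Pool.Agent.H36.KG

theorem isCompl_iff_elem {A : Type u} [Ring A] {N : Type v} [AddCommGroup N] [Module A N]
    {P Q : Submodule A N} : IsCompl P Q ↔
      (∀ x, x ∈ P → x ∈ Q → x = 0) ∧ ∀ x, ∃ p ∈ P, ∃ q ∈ Q, p + q = x := by
  rw [isCompl_iff, Submodule.disjoint_def, codisjoint_iff, eq_top_iff]
  refine and_congr_right fun _ => ⟨fun h x => ?_, fun h x _ => ?_⟩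
  · exact Submodule.mem_sup.1 (h (trivial : x ∈ (⊤ : Submodule A N)))
  · exact Submodule.mem_sup.2 (h x)

section Pull

variable {A B : Type u} [Ring A] [Ring B] (f : A →+* B) (hf : Function.Surjective f)
  {N : Type u} [AddCommGroup N] [Module A N] [Module B N]
  (hc : ∀ (a : A) (n : N), f a • n = a • n)

include hf hc in
/-- An injective module over a quotient of a regular ring is injective over the ring. -/
theorem pull_injective (hreg : ∀ a : A, ∃ x : A, a * x * a = a) (hN : Module.Injective B N) :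
    Module.Injective A N := by
  classical
  apply Module.Baer.injective
  intro I g
  have hker : ∀ (a : A) (ha : a ∈ I), f a = 0 → g ⟨a, ha⟩ = 0 := by
    intro a ha h0
    obtain ⟨y, hy⟩ := hreg a
    have h1 : (⟨a, ha⟩ : I) = (a * y) • (⟨a, ha⟩ : I) := Subtype.ext (by
      show a = (a * y) * a
      exact hy.symm)
    rw [h1, map_smul, ← hc, map_mul, h0, zero_mul, zero_smul]
  have hwd : ∀ (a : A) (ha : a ∈ I) (a' : A) (ha' : a' ∈ I), f a = f a' →
      g ⟨a, ha⟩ = g ⟨a', ha'⟩ := by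
    intro a ha a' ha' h
    have h1 := hker (a - a') (I.sub_mem ha ha') (by rw [map_sub, h, sub_self])
    have h2 : (⟨a - a', I.sub_mem ha ha'⟩ : I) = ⟨a, ha⟩ - ⟨a', ha'⟩ := rfl
    rw [h2, map_sub, sub_eq_zero] at h1
    exact h1
  let J : Ideal B :=
    { carrier := {b | ∃ a ∈ I, f a = b}
      add_mem' := by
        rintro _ _ ⟨a, ha, rfl⟩ ⟨a', ha', rfl⟩
        exact ⟨a + a', I.add_mem ha ha', map_add f a a'⟩
      zero_mem' := ⟨0, I.zero_mem, map_zero f⟩
      smul_mem' := by
        rintro b _ ⟨a, ha, rfl⟩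
        obtain ⟨c, rfl⟩ := hf b
        exact ⟨c * a, I.mul_mem_left c ha, map_mul f c a⟩ }
  have hJ : ∀ b : J, ∃ a : A, ∃ _ : a ∈ I, f a = b.1 := by
    rintro ⟨b, a, ha, h⟩
    exact ⟨a, ha, h⟩
  choose s hs hfs using hJ
  let g₁ : J →ₗ[B] N :=
    { toFun := fun b => g ⟨s b, hs b⟩
      map_add' := by
        intro b b'
        rw [← map_add]
        exact hwd _ _ _ _ (by rw [hfs, map_add, hfs, hfs]; rfl)
      map_smul' := by
        intro c b
        obtain ⟨c, rfl⟩ := hf c
        rw [RingHom.id_apply, hc, ← map_smul]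
        exact hwd _ _ _ _ (by rw [hfs, smul_eq_mul, map_mul, hfs]; rfl) }
  obtain ⟨h, hh⟩ := hN.out J.subtype J.injective_subtype g₁
  refine ⟨{ toFun := fun a => h (f a), map_add' := fun a b => by rw [map_add, map_add],
            map_smul' := fun r a => ?_ }, fun x hx => ?_⟩
  · rw [RingHom.id_apply, ← hc, ← map_smul, smul_eq_mul, smul_eq_mul, map_mul]
  · have h1 := hh ⟨f x, x, hx, rfl⟩
    show h (f x) = g ⟨x, hx⟩
    rw [show h (f x) = h (J.subtype ⟨f x, x, hx, rfl⟩) from rfl, h1]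
    exact hwd _ _ _ _ (hfs _)

include hf hc in
theorem pull_indInj (hreg : ∀ a : A, ∃ x : A, a * x * a = a) (hN : IndInj B N) : IndInj A N := by
  refine ⟨hN.nontrivial, pull_injective f hf hc hreg hN.injective, fun P Q hPQ => ?_⟩
  let tr : Submodule A N → Submodule B N := fun P =>
    { carrier := P
      add_mem' := fun ha hb => P.add_mem ha hb
      zero_mem' := P.zero_mem
      smul_mem' := by
        intro b x hx
        obtain ⟨a, rfl⟩ := hf b
        rw [hc]
        exact P.smul_mem a hx }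
  obtain ⟨hc1, hc2⟩ := isCompl_iff_elem.1 hPQ
  have h1 : IsCompl (tr P) (tr Q) := isCompl_iff_elem.2
    ⟨fun x hx hx' => hc1 x hx hx', fun x => hc2 x⟩
  rcases hN.indecomposable _ _ h1 with h | h
  · left
    rw [eq_bot_iff]
    intro x hx
    have : x ∈ tr P := hx
    rwa [h] at this
  · right
    rw [eq_bot_iff]
    intro x hx
    have : x ∈ tr Q := hx
    rwa [h] at this

end Pull

section Corner

variable {S C : Type u} [Ring S] [Ring C] (ι : C →ₙ+* S)

theorem ι_one_mul (c : C) : ι 1 * ι c = ι c := by rw [← map_mul, one_mul]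

theorem ι_mul_one (c : C) : ι c * ι 1 = ι c := by rw [← map_mul, mul_one]

/-- the fixed points of the idempotent `ι 1` -/
def cornerMod (B : Type u) [AddCommGroup B] [Module S B] : AddSubgroup B where
  carrier := {b | ι 1 • b = b}
  add_mem' := by
    intro a b ha hb
    show ι 1 • (a + b) = a + b
    rw [smul_add, ha, hb]
  zero_mem' := smul_zero _
  neg_mem' := by
    intro a ha
    show ι 1 • (-a) = -a
    rw [smul_neg, ha]

instance (B : Type u) [AddCommGroup B] [Module S B] : Module C (cornerMod ι B) where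
  smul c b := ⟨ι c • b.1, by
    show ι 1 • ι c • b.1 = ι c • b.1
    rw [← mul_smul, ι_one_mul]⟩
  one_smul b := Subtype.ext b.2
  mul_smul c d b := Subtype.ext (by
    show ι (c * d) • b.1 = ι c • ι d • b.1
    rw [map_mul, mul_smul])
  smul_zero c := Subtype.ext (smul_zero _)
  smul_add c a b := Subtype.ext (smul_add _ _ _)
  add_smul c d b := Subtype.ext (by
    show ι (c + d) • b.1 = ι c • b.1 + ι d • b.1
    rw [map_add, add_smul])
  zero_smul b := Subtype.ext (by
    show ι 0 • b.1 = 0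
    rw [map_zero, zero_smul])

theorem cornerMod_smul_val (B : Type u) [AddCommGroup B] [Module S B] (c : C)
    (b : cornerMod ι B) : (c • b).1 = ι c • b.1 := rfl

variable (Q : Type u) [AddCommGroup Q] [Module C Q]

/-- the coinduced module -/
def Coind : AddSubgroup (S →+ Q) where
  carrier := {φ | ∀ (c : C) (s : S), φ (ι c * s) = c • φ s}
  add_mem' := by
    intro φ ψ hφ hψ c s
    rw [AddMonoidHom.add_apply, AddMonoidHom.add_apply, hφ c s, hψ c s, smul_add]
  zero_mem' := by
    intro c s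
    rw [AddMonoidHom.zero_apply, AddMonoidHom.zero_apply, smul_zero]
  neg_mem' := by
    intro φ hφ c s
    rw [AddMonoidHom.neg_apply, AddMonoidHom.neg_apply, hφ c s, smul_neg]

instance : Module S (Coind ι Q) where
  smul t φ := ⟨φ.1.comp (AddMonoidHom.mulRight t), by
    intro c s
    show φ.1 (ι c * s * t) = c • φ.1 (s * t)
    rw [mul_assoc]
    exact φ.2 c (s * t)⟩
  one_smul φ := Subtype.ext (AddMonoidHom.ext fun s => by
    show φ.1 (s * 1) = φ.1 s
    rw [mul_one])
  mul_smul t t' φ := Subtype.ext (AddMonoidHom.ext fun s => by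
    show φ.1 (s * (t * t')) = φ.1 (s * t * t')
    rw [mul_assoc])
  smul_zero t := Subtype.ext (AddMonoidHom.ext fun s => rfl)
  smul_add t φ ψ := Subtype.ext (AddMonoidHom.ext fun s => rfl)
  add_smul t t' φ := Subtype.ext (AddMonoidHom.ext fun s => by
    show φ.1 (s * (t + t')) = φ.1 (s * t) + φ.1 (s * t')
    rw [mul_add, map_add])
  zero_smul φ := Subtype.ext (AddMonoidHom.ext fun s => by
    show φ.1 (s * 0) = 0
    rw [mul_zero, map_zero])

variable {Q}

theorem coind_smul_apply (t : S) (φ : Coind ι Q) (s : S) : (t • φ).1 s = φ.1 (s * t) := rfl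

theorem coind_ι (φ : Coind ι Q) (c : C) (s : S) : φ.1 (ι c * s) = c • φ.1 s := φ.2 c s

theorem coind_e (φ : Coind ι Q) (s : S) : φ.1 (ι 1 * s) = φ.1 s := by
  rw [coind_ι, one_smul]

theorem coind_injective (hQ : Module.Injective C Q) : Module.Injective S (Coind ι Q) := by
  constructor
  intro A B _ _ _ _ f hf g
  let h₁ : cornerMod ι A →ₗ[C] Q :=
    { toFun := fun a => (g a.1).1 1
      map_add' := by
        intro a b
        show (g (a.1 + b.1)).1 1 = (g a.1).1 1 + (g b.1).1 1
        rw [map_add]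
        rfl
      map_smul' := by
        intro c a
        show (g (ι c • a.1)).1 1 = c • (g a.1).1 1
        rw [map_smul, coind_smul_apply, one_mul, ← coind_ι, mul_one] }
  let fe : cornerMod ι A →ₗ[C] cornerMod ι B :=
    { toFun := fun a => ⟨f a.1, by
        show ι 1 • f a.1 = f a.1
        rw [← map_smul, a.2]⟩
      map_add' := fun a b => Subtype.ext (map_add f a.1 b.1)
      map_smul' := fun c a => Subtype.ext (map_smul f (ι c) a.1) }
  have hfe : Function.Injective fe := by
    intro a b hab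
    exact Subtype.ext (hf (congrArg Subtype.val hab))
  obtain ⟨h, hh⟩ := hQ.out fe hfe h₁
  have hmem : ∀ {X : Type u} [AddCommGroup X] [Module S X] (s : S) (b : X),
      (ι 1 * s) • b ∈ cornerMod ι X := by
    intro X _ _ s b
    show ι 1 • (ι 1 * s) • b = (ι 1 * s) • b
    rw [← mul_smul, ← mul_assoc, ι_one_mul]
  let G₀ : B → Coind ι Q := fun b =>
    ⟨{ toFun := fun s => h ⟨(ι 1 * s) • b, hmem s b⟩
       map_zero' := by
         have : (⟨(ι 1 * 0) • b, hmem 0 b⟩ : cornerMod ι B) = 0 := Subtype.ext (by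
           show (ι 1 * 0) • b = 0
           rw [mul_zero, zero_smul])
         rw [this, map_zero]
       map_add' := by
         intro s t
         rw [← map_add]
         congr 1
         exact Subtype.ext (by
           show (ι 1 * (s + t)) • b = (ι 1 * s) • b + (ι 1 * t) • b
           rw [mul_add, add_smul]) }, by
      intro c s
      show h ⟨(ι 1 * (ι c * s)) • b, _⟩ = c • h ⟨(ι 1 * s) • b, _⟩
      rw [← map_smul]
      congr 1
      exact Subtype.ext (by
        show (ι 1 * (ι c * s)) • b = ι c • (ι 1 * s) • b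
        rw [← mul_smul, ← mul_assoc, ι_one_mul, ← mul_assoc, ι_mul_one])⟩
  have hG₀ : ∀ (b : B) (s : S), (G₀ b).1 s = h ⟨(ι 1 * s) • b, hmem s b⟩ := fun _ _ => rfl
  let G : B →ₗ[S] Coind ι Q :=
    { toFun := G₀
      map_add' := by
        intro a b
        refine Subtype.ext (AddMonoidHom.ext fun s => ?_)
        show h ⟨(ι 1 * s) • (a + b), _⟩ = h ⟨(ι 1 * s) • a, _⟩ + h ⟨(ι 1 * s) • b, _⟩
        rw [← map_add]
        congr 1
        exact Subtype.ext (smul_add _ _ _)
      map_smul' := by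
        intro t b
        refine Subtype.ext (AddMonoidHom.ext fun s => ?_)
        show h ⟨(ι 1 * s) • (t • b), _⟩ = h ⟨(ι 1 * (s * t)) • b, _⟩
        congr 1
        exact Subtype.ext (by
          show (ι 1 * s) • (t • b) = (ι 1 * (s * t)) • b
          rw [← mul_smul, mul_assoc]) }
  refine ⟨G, fun a => Subtype.ext (AddMonoidHom.ext fun s => ?_)⟩
  show h ⟨(ι 1 * s) • f a, _⟩ = (g a).1 s
  have h2 : (⟨(ι 1 * s) • f a, hmem s (f a)⟩ : cornerMod ι B) = fe ⟨(ι 1 * s) • a, hmem s a⟩ :=
    Subtype.ext (by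
      show (ι 1 * s) • f a = f ((ι 1 * s) • a)
      rw [map_smul])
  rw [h2, hh]
  show (g ((ι 1 * s) • a)).1 1 = (g a).1 s
  rw [map_smul, coind_smul_apply, one_mul, coind_e]

variable (hι : Function.Injective ι) (κ : S → C) (hκ : ∀ s, ι (κ s) = ι 1 * s * ι 1)

include hι hκ in
theorem κ_add (s t : S) : κ (s + t) = κ s + κ t := by
  apply hι
  rw [map_add, hκ, hκ, hκ, mul_add, add_mul]

include hι hκ in
theorem κ_ι_mul (c : C) (s : S) : κ (ι c * s) = c * κ s := by
  apply hι
  rw [map_mul, hκ, hκ, ← mul_assoc (ι 1), ι_one_mul, ← mul_assoc (ι c), ← mul_assoc (ι c),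
    ι_mul_one]

include hι hκ in
theorem κ_mul_ι (c : C) (s : S) : κ (s * ι c) = κ s * c := by
  apply hι
  rw [map_mul, hκ, hκ, mul_assoc, mul_assoc s, ι_mul_one, mul_assoc (ι 1 * s), ι_one_mul,
    mul_assoc]

include hι hκ in
theorem κ_ι (c : C) : κ (ι c) = c := by
  apply hι
  rw [hκ, ι_one_mul, ι_mul_one]

include hι hκ in
theorem κ_one : κ 1 = 1 := by
  apply hι
  rw [hκ, mul_one, ι_one_mul]

/-- the element of the coinduced module attached to `q` -/
def coindOf (q : Q) : Coind ι Q :=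
  ⟨{ toFun := fun s => κ s • q
     map_zero' := by
       have h := κ_add ι hι κ hκ 0 0
       rw [add_zero, left_eq_add] at h
       rw [h, zero_smul]
     map_add' := fun s t => by rw [κ_add ι hι κ hκ, add_smul] }, by
    intro c s
    show κ (ι c * s) • q = c • κ s • q
    rw [κ_ι_mul ι hι κ hκ, mul_smul]⟩

theorem coindOf_apply (q : Q) (s : S) : (coindOf ι hι κ hκ q).1 s = κ s • q := rfl

theorem coindOf_one (q : Q) : (coindOf ι hι κ hκ q).1 1 = q := by
  rw [coindOf_apply, κ_one ι hι κ hκ, one_smul]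

theorem coindOf_add (q q' : Q) :
    coindOf ι hι κ hκ (q + q') = coindOf ι hι κ hκ q + coindOf ι hι κ hκ q' :=
  Subtype.ext (AddMonoidHom.ext fun s => smul_add (κ s) q q')

theorem coindOf_smul (c : C) (q : Q) :
    coindOf ι hι κ hκ (c • q) = ι c • coindOf ι hι κ hκ q :=
  Subtype.ext (AddMonoidHom.ext fun s => by
    show κ s • c • q = κ (s * ι c) • q
    rw [κ_mul_ι ι hι κ hκ, mul_smul])

theorem e_smul_coind (φ : Coind ι Q) : ι 1 • φ = coindOf ι hι κ hκ (φ.1 1) :=
  Subtype.ext (AddMonoidHom.ext fun s => by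
    show φ.1 (s * ι 1) = κ s • φ.1 1
    rw [← coind_ι, mul_one, hκ, mul_assoc, coind_e])

include hι hκ in
theorem coind_indInj (hQ : IndInj C Q) : IndInj S (Coind ι Q) := by
  have hnt := hQ.nontrivial
  refine ⟨?_, coind_injective ι hQ.injective, fun A B hAB => ?_⟩
  · obtain ⟨q, hq⟩ := exists_ne (0 : Q)
    refine ⟨coindOf ι hι κ hκ q, 0, fun h => hq ?_⟩
    rw [← coindOf_one ι hι κ hκ q, h]
    rfl
  · let ev : Submodule S (Coind ι Q) → Submodule C Q := fun A =>
      { carrier := {q | ∃ φ ∈ A, φ.1 1 = q}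
        add_mem' := by
          rintro _ _ ⟨φ, hφ, rfl⟩ ⟨ψ, hψ, rfl⟩
          exact ⟨φ + ψ, A.add_mem hφ hψ, rfl⟩
        zero_mem' := ⟨0, A.zero_mem, rfl⟩
        smul_mem' := by
          rintro c _ ⟨φ, hφ, rfl⟩
          refine ⟨ι c • φ, A.smul_mem _ hφ, ?_⟩
          rw [coind_smul_apply, one_mul, ← coind_ι, mul_one] }
    have hev : ∀ A : Submodule S (Coind ι Q), ev A = ⊥ → A = ⊥ := by
      intro A h
      rw [eq_bot_iff]
      intro φ hφ
      rw [Submodule.mem_bot]
      refine Subtype.ext (AddMonoidHom.ext fun s => ?_)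
      have h1 : (s • φ).1 1 ∈ ev A := ⟨s • φ, A.smul_mem s hφ, rfl⟩
      rw [h, Submodule.mem_bot, coind_smul_apply, one_mul] at h1
      exact h1
    obtain ⟨h1, h2⟩ := isCompl_iff_elem.1 hAB
    have h3 : IsCompl (ev A) (ev B) := by
      refine isCompl_iff_elem.2 ⟨?_, fun q => ?_⟩
      · rintro q ⟨α, hα, hαq⟩ ⟨β, hβ, hβq⟩
        have hA : coindOf ι hι κ hκ q ∈ A := by
          rw [← hαq, ← e_smul_coind]
          exact A.smul_mem _ hα
        have hB : coindOf ι hι κ hκ q ∈ B := by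
          rw [← hβq, ← e_smul_coind]
          exact B.smul_mem _ hβ
        rw [← coindOf_one ι hι κ hκ q, h1 _ hA hB]
        rfl
      · obtain ⟨α, hα, β, hβ, h⟩ := h2 (coindOf ι hι κ hκ q)
        refine ⟨α.1 1, ⟨α, hα, rfl⟩, β.1 1, ⟨β, hβ, rfl⟩, ?_⟩
        rw [← coindOf_one ι hι κ hκ q, ← h]
        rfl
    rcases hQ.indecomposable _ _ h3 with h | h
    · exact Or.inl (hev A h)
    · exact Or.inr (hev B h)

include hκ in
/-- the coinduced module is annihilated by `I` if `Q` is -/
theorem coind_killed (hreg : ∀ a : S, ∃ x : S, a * x * a = a) (I : Ideal S)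
    (hI2 : ∀ x ∈ I, ∀ r : S, x * r ∈ I) (hQ : ∀ c : C, ι c ∈ I → ∀ q : Q, c • q = 0) (z : S)
    (hz : z ∈ I) (φ : Coind ι Q) : z • φ = 0 := by
  refine Subtype.ext (AddMonoidHom.ext fun s => ?_)
  show φ.1 (s * z) = 0
  rw [← coind_e]
  set w := ι 1 * (s * z) with hw
  have hwI : w ∈ I := I.mul_mem_left _ (I.mul_mem_left _ hz)
  have hew : ι 1 * w = w := by rw [hw, ← mul_assoc, ι_one_mul]
  obtain ⟨y, hy⟩ := hreg w
  have hc : ι (κ (w * y)) = w * y * ι 1 := by
    rw [hκ, ← mul_assoc (ι 1), hew]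
  have h1 : w = ι (κ (w * y)) * w := by
    rw [hc, mul_assoc, hew, hy]
  have h2 : ι (κ (w * y)) ∈ I := by
    rw [hc]
    exact hI2 _ (hI2 _ hwI _) _
  rw [h1, coind_ι, hQ _ h2]

include hι hκ in
theorem coind_e_ne_zero [Nontrivial Q] : ∃ φ : Coind ι Q, ι 1 • φ ≠ 0 := by
  obtain ⟨q, hq⟩ := exists_ne (0 : Q)
  refine ⟨coindOf ι hι κ hκ q, fun h => hq ?_⟩
  rw [e_smul_coind ι hι κ hκ, coindOf_one] at h
  rw [← coindOf_one ι hι κ hκ q, h]
  rfl

include hι hκ in
/-- isomorphic coinduced modules come from isomorphic modules -/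
theorem coind_iso {Q' : Type u} [AddCommGroup Q'] [Module C Q']
    (ψ : Coind ι Q ≃ₗ[S] Coind ι Q') : Nonempty (Q ≃ₗ[C] Q') := by
  have key : ∀ {P P' : Type u} [AddCommGroup P] [AddCommGroup P'] [Module C P] [Module C P']
      (ψ : Coind ι P ≃ₗ[S] Coind ι P') (q : P),
      (ψ.symm (coindOf ι hι κ hκ ((ψ (coindOf ι hι κ hκ q)).1 1))).1 1 = q := by
    intro P P' _ _ _ _ ψ q
    rw [← e_smul_coind, ← map_smul, LinearEquiv.symm_apply_apply, e_smul_coind ι hι κ hκ,
      coindOf_one, coindOf_one]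
  refine ⟨{ toFun := fun q => (ψ (coindOf ι hι κ hκ q)).1 1
            map_add' := ?_, map_smul' := ?_
            invFun := fun q => (ψ.symm (coindOf ι hι κ hκ q)).1 1
            left_inv := fun q => key ψ q, right_inv := fun q => ?_ }⟩
  · intro q q'
    rw [coindOf_add, map_add]
    rfl
  · intro c q
    rw [coindOf_smul, map_smul, coind_smul_apply, one_mul, RingHom.id_apply, ← coind_ι, mul_one]
  · have := key ψ.symm q
    rwa [LinearEquiv.symm_symm] at this

end Corner

end Pool.Agent.H36.KG
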