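import Mathlib

/-! # Injective hulls inside an injective module; indecomposable injective modules -/

set_option autoImplicit false

universe u v

namespace Pool.Agent.H36.KG

variable {R : Type u} [Ring R]

/-- `A` is essential in `E`: every nonzero element of `E` has a nonzero multiple in `A`. -/
def Ess {M : Type v} [AddCommGroup M] [Module R M] (A E : Submodule R M) : Prop :=
  A ≤ E ∧ ∀ x ∈ E, x ≠ 0 → ∃ r : R, r • x ∈ A ∧ r • x ≠ 0

theorem Ess.refl {M : Type v} [AddCommGroup M] [Module R M] (A : Submodule R M) : Ess A A :=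
  ⟨le_rfl, fun x hx h0 => ⟨1, by simpa using hx, by simpa using h0⟩⟩

theorem Ess.trans {M : Type v} [AddCommGroup M] [Module R M] {A B C : Submodule R M}
    (h : Ess A B) (h' : Ess B C) : Ess A C := by
  refine ⟨h.1.trans h'.1, fun x hx h0 => ?_⟩
  obtain ⟨r, hr, hr0⟩ := h'.2 x hx h0
  obtain ⟨s, hs, hs0⟩ := h.2 _ hr hr0
  exact ⟨s * r, by rwa [mul_smul], by rwa [mul_smul]⟩

/-- Every submodule `A` of an injective module is essential in a direct summand. -/
theorem exists_hull {J : Type v} [AddCommGroup J] [Module R J] (hJ : Module.Injective R J)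
    (A : Submodule R J) : ∃ E C : Submodule R J, Ess A E ∧ IsCompl E C := by
  classical
  obtain ⟨E, hAE, hE⟩ := zorn_le_nonempty₀ {E : Submodule R J | Ess A E} (by
    intro c hc hch y hy
    refine ⟨sSup c, ⟨(hc hy).1.trans (le_sSup hy), fun x hx h0 => ?_⟩, fun z hz => le_sSup hz⟩
    rw [Submodule.mem_sSup_of_directed ⟨y, hy⟩ hch.directedOn] at hx
    obtain ⟨z, hz, hxz⟩ := hx
    exact (hc hz).2 x hxz h0) A (Ess.refl A)
  obtain ⟨C, -, hC⟩ := zorn_le_nonempty₀ {C : Submodule R J | Disjoint E C} (by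
    intro c hc hch y hy
    refine ⟨sSup c, ?_, fun z hz => le_sSup hz⟩
    show Disjoint E (sSup c)
    rw [Submodule.disjoint_def]
    intro x hxE hx
    rw [Submodule.mem_sSup_of_directed ⟨y, hy⟩ hch.directedOn] at hx
    obtain ⟨z, hz, hxz⟩ := hx
    exact (Submodule.disjoint_def.1 (hc hz)) x hxE hxz) ⊥ disjoint_bot_right
  have hEess : Ess A E := hE.prop
  have hdis : Disjoint E C := hC.prop
  -- elements outside `C`
  have hout : ∀ y : J, y ∉ C → ∃ (e : J) (r : R) (c : J), e ∈ E ∧ e ≠ 0 ∧ c ∈ C ∧ e = c + r • y := by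
    intro y hy
    by_contra hcon
    push Not at hcon
    have h1 : Disjoint E (C ⊔ Submodule.span R {y}) := by
      rw [Submodule.disjoint_def]
      intro x hxE hx
      obtain ⟨c, hc, w, hw, rfl⟩ := Submodule.mem_sup.1 hx
      obtain ⟨r, rfl⟩ := Submodule.mem_span_singleton.1 hw
      by_contra h0
      exact hcon _ r c hxE h0 hc rfl
    have h2 : C ⊔ Submodule.span R {y} ≤ C := hC.le_of_ge h1 le_sup_left
    exact hy (h2 (Submodule.mem_sup_right (Submodule.mem_span_singleton_self y)))
  -- the extension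
  let i : E →ₗ[R] (J ⧸ C) := C.mkQ.comp E.subtype
  have hi : Function.Injective i := by
    rw [← LinearMap.ker_eq_bot, LinearMap.ker_eq_bot']
    intro x hx
    have h1 : (x : J) ∈ C := by
      have : C.mkQ (x : J) = 0 := hx
      rwa [Submodule.mkQ_apply, Submodule.Quotient.mk_eq_zero] at this
    exact Subtype.ext ((Submodule.disjoint_def.1 hdis) x x.2 h1)
  obtain ⟨h, hh⟩ := hJ.out i hi E.subtype
  have hh' : ∀ x ∈ E, h (C.mkQ x) = x := fun x hx => hh ⟨x, hx⟩
  have hker : ∀ y : J, h (C.mkQ y) = 0 → y ∈ C := by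
    intro y hy
    by_contra hyC
    obtain ⟨e, r, c, he, he0, hc, hec⟩ := hout y hyC
    have h1 : C.mkQ e = r • C.mkQ y := by
      rw [hec, map_add, map_smul]
      have : C.mkQ c = 0 := by rwa [Submodule.mkQ_apply, Submodule.Quotient.mk_eq_zero]
      rw [this, zero_add]
    have h2 := hh' e he
    rw [h1, map_smul, hy, smul_zero] at h2
    exact he0 h2.symm
  have hrange : Ess E (LinearMap.range h) := by
    refine ⟨fun x hx => ⟨C.mkQ x, hh' x hx⟩, ?_⟩
    rintro x ⟨q, rfl⟩ h0
    obtain ⟨y, rfl⟩ := C.mkQ_surjective q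
    have hyC : y ∉ C := by
      intro hyC
      apply h0
      have : C.mkQ y = 0 := by rwa [Submodule.mkQ_apply, Submodule.Quotient.mk_eq_zero]
      rw [this, map_zero]
    obtain ⟨e, r, c, he, he0, hc, hec⟩ := hout y hyC
    have h1 : C.mkQ e = r • C.mkQ y := by
      rw [hec, map_add, map_smul]
      have : C.mkQ c = 0 := by rwa [Submodule.mkQ_apply, Submodule.Quotient.mk_eq_zero]
      rw [this, zero_add]
    refine ⟨r, ?_, ?_⟩
    · rw [← map_smul, ← h1, hh' e he]; exact he
    · rw [← map_smul, ← h1, hh' e he]; exact he0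
  have hle : LinearMap.range h ≤ E := hE.le_of_ge (hEess.trans hrange) hrange.1
  refine ⟨E, C, hEess, hdis, ?_⟩
  rw [codisjoint_iff, eq_top_iff]
  intro y _
  have h1 : h (C.mkQ y) ∈ E := hle ⟨_, rfl⟩
  have h2 : h (C.mkQ (y - h (C.mkQ y))) = 0 := by
    rw [map_sub, map_sub, hh' _ h1, sub_self]
  have h3 := hker _ h2
  have : y = h (C.mkQ y) + (y - h (C.mkQ y)) := by abel
  rw [this]
  exact Submodule.add_mem_sup h1 h3

/-- A direct summand of an injective module is injective. -/
theorem injective_of_isCompl {J : Type v} [AddCommGroup J] [Module R J]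
    (hJ : Module.Injective R J) {E C : Submodule R J} (h : IsCompl E C) :
    Module.Injective R E := by
  constructor
  intro X Y _ _ _ _ f hf g
  obtain ⟨k, hk⟩ := hJ.out f hf (E.subtype.comp g)
  refine ⟨(Submodule.projectionOnto E C h).comp k, fun x => ?_⟩
  rw [LinearMap.comp_apply, hk]
  exact Submodule.projectionOnto_apply_left h (g x)

/-- indecomposable injective modules -/
structure IndInj (R : Type u) [Ring R] (N : Type v) [AddCommGroup N] [Module R N] : Prop where
  nontrivial : Nontrivial N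
  injective : Module.Injective R N
  indecomposable : ∀ P Q : Submodule R N, IsCompl P Q → P = ⊥ ∨ Q = ⊥

/-- An indecomposable injective module is uniform. -/
theorem IndInj.uniform {N : Type v} [AddCommGroup N] [Module R N] (h : IndInj R N) (x y : N)
    (hx : x ≠ 0) (hy : y ≠ 0) : ∃ r s : R, r • y = s • x ∧ r • y ≠ 0 := by
  obtain ⟨E, C, hE, hEC⟩ := exists_hull h.injective (Submodule.span R {x})
  have hxE : x ∈ E := hE.1 (Submodule.mem_span_singleton_self x)
  have hC : C = ⊥ := by
    rcases h.indecomposable E C hEC with h1 | h1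
    · rw [h1] at hxE
      exact absurd ((Submodule.mem_bot R).1 hxE) hx
    · exact h1
  have hE' : E = ⊤ := by
    have := hEC.sup_eq_top
    rwa [hC, sup_bot_eq] at this
  obtain ⟨r, hr, hr0⟩ := hE.2 y (by rw [hE']; trivial) hy
  obtain ⟨s, hs⟩ := Submodule.mem_span_singleton.1 hr
  exact ⟨r, s, hs.symm, hr0⟩

/-- every simple module has an indecomposable injective hull -/
theorem exists_indInj (S : Type u) [AddCommGroup S] [Module R S] [IsSimpleModule R S] :
    ∃ (N : Type u) (_ : AddCommGroup N) (_ : Module R N) (j : S →ₗ[R] N),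
      IndInj R N ∧ Function.Injective j ∧ Ess (LinearMap.range j) ⊤ := by
  obtain ⟨⟨J₀, hJ₀, i₀, hi₀⟩⟩ := (inferInstance : CategoryTheory.EnoughInjectives (ModuleCat.{u} R)).presentation
    (ModuleCat.of R S)
  have hJ : Module.Injective R J₀ := by
    have := hJ₀
    exact (Module.injective_iff_injective_object R J₀).2 this
  let i : S →ₗ[R] J₀ := i₀.hom
  have hi : Function.Injective i := (ModuleCat.mono_iff_injective i₀).1 hi₀
  obtain ⟨E, C, hE, hEC⟩ := exists_hull hJ (LinearMap.range i)
  have hiE : ∀ s, i s ∈ E := fun s => hE.1 ⟨s, rfl⟩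
  let j : S →ₗ[R] E := i.codRestrict E hiE
  have hj : Function.Injective j := by
    intro a b hab
    exact hi (congrArg Subtype.val hab)
  have hess : Ess (LinearMap.range j) (⊤ : Submodule R E) := by
    refine ⟨le_top, fun x _ h0 => ?_⟩
    obtain ⟨r, ⟨s, hs⟩, hr0⟩ := hE.2 x.1 x.2 (fun h => h0 (Subtype.ext h))
    refine ⟨r, ⟨s, Subtype.ext hs⟩, fun h => hr0 ?_⟩
    have := congrArg Subtype.val h
    exact this
  have : Nontrivial S := IsSimpleModule.nontrivial R S
  refine ⟨E, inferInstance, inferInstance, j, ⟨hj.nontrivial, injective_of_isCompl hJ hEC, ?_⟩,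
    hj, hess⟩
  intro P Q hPQ
  by_contra hcon
  push Not at hcon
  -- the simple submodule is contained in every nonzero submodule
  have key : ∀ P : Submodule R E, P ≠ ⊥ → LinearMap.range j ≤ P := by
    intro P hP
    obtain ⟨x, hxP, hx0⟩ := (Submodule.ne_bot_iff P).1 hP
    obtain ⟨r, ⟨s, hs⟩, hr0⟩ := hess.2 x trivial hx0
    have hs0 : s ≠ 0 := by
      rintro rfl
      rw [map_zero] at hs
      exact hr0 hs.symm
    rintro _ ⟨t, rfl⟩
    have hspan : Submodule.span R {s} = ⊤ := by
      rcases eq_bot_or_eq_top (Submodule.span R {s}) with h | h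
      · exact absurd (Submodule.span_singleton_eq_bot.1 h) hs0
      · exact h
    have ht : t ∈ Submodule.span R {s} := by rw [hspan]; trivial
    obtain ⟨q, rfl⟩ := Submodule.mem_span_singleton.1 ht
    rw [map_smul, hs]
    exact P.smul_mem _ (P.smul_mem _ hxP)
  obtain ⟨s, hs0⟩ := exists_ne (0 : S)
  have h1 := key P hcon.1 ⟨s, rfl⟩
  have h2 := key Q hcon.2 ⟨s, rfl⟩
  have h3 := (Submodule.disjoint_def.1 hPQ.disjoint) _ h1 h2
  exact hs0 (hj (by rw [h3, map_zero]))

end Pool.Agent.H36.KG
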