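import Pool.Agent.H36.KG.Spec
import Pool.Agent.H36.KG.Coind

/-! # Reduction to simple rings with one indecomposable injective module -/

set_option autoImplicit false

universe u v

namespace Pool.Agent.H36.KG

section Ideals

variable {S : Type u} [Ring S]

/-- an idempotent outside a two-sided ideal acts nontrivially on a simple module killed by the
ideal -/
theorem exists_maximal (J : Ideal S) (hJ2 : ∀ x ∈ J, ∀ r : S, x * r ∈ J) (g : S)
    (hg : g * g = g) (hgJ : g ∉ J) : ∃ P : Ideal S, P.IsMaximal ∧ J ≤ P ∧ ∃ w : S ⧸ P, g • w ≠ 0 := by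
  have hne : J ⊔ Submodule.span S {1 - g} ≠ ⊤ := by
    rw [Ideal.ne_top_iff_one]
    intro h1
    obtain ⟨a, ha, b, hb, hab⟩ := Submodule.mem_sup.1 h1
    obtain ⟨y, rfl⟩ := Submodule.mem_span_singleton.1 hb
    apply hgJ
    have h3 : (a + y • (1 - g)) * g = 1 * g := by rw [hab]
    rw [add_mul, smul_eq_mul, mul_assoc, sub_mul, one_mul, hg, sub_self, mul_zero, add_zero] at h3
    rw [← h3]
    exact hJ2 a ha _
  obtain ⟨P, hP, hJP⟩ := Ideal.exists_le_maximal _ hne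
  refine ⟨P, hP, le_sup_left.trans hJP, Submodule.Quotient.mk 1, fun h0 => ?_⟩
  rw [← Submodule.Quotient.mk_smul, Submodule.Quotient.mk_eq_zero, smul_eq_mul, mul_one] at h0
  have h1 : (1 - g) ∈ P := hJP (Submodule.mem_sup_right (Submodule.mem_span_singleton_self _))
  have := P.add_mem h1 h0
  rw [sub_add_cancel] at this
  exact (Ideal.ne_top_iff_one P).1 hP.ne_top this

theorem quotient_killed (J : Ideal S) (hJ2 : ∀ x ∈ J, ∀ r : S, x * r ∈ J) (P : Ideal S)
    (hJP : J ≤ P) (j : S) (hj : j ∈ J) (w : S ⧸ P) : j • w = 0 := by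
  obtain ⟨t, rfl⟩ := Submodule.Quotient.mk_surjective P w
  rw [← Submodule.Quotient.mk_smul, Submodule.Quotient.mk_eq_zero, smul_eq_mul]
  exact hJP (hJ2 _ hj _)

variable (hreg : ∀ a : S, ∃ x : S, a * x * a = a) (I : Ideal S)
  (hI2 : ∀ x ∈ I, ∀ r : S, x * r ∈ I)

/-- all indecomposable injective modules that are killed by `I` and not by `e` are isomorphic -/
def UniqueInj (I : Ideal S) (e : S) : Prop :=
  ∀ (N N' : Type u) [AddCommGroup N] [AddCommGroup N'] [Module S N] [Module S N'],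
    IndInj S N → IndInj S N' → (∀ a ∈ I, ∀ n : N, a • n = 0) → (∀ a ∈ I, ∀ n : N', a • n = 0) →
    (∃ n : N, e • n ≠ 0) → (∃ n : N', e • n ≠ 0) → Nonempty (N ≃ₗ[S] N')

include hreg hI2 in
theorem simple_unique (e : S) (huniq : UniqueInj I e) (P P' : Ideal S) (hP : P.IsMaximal)
    (hP' : P'.IsMaximal) (hIP : I ≤ P) (hIP' : I ≤ P') (hw : ∃ w : S ⧸ P, e • w ≠ 0)
    (hw' : ∃ w : S ⧸ P', e • w ≠ 0) : Nonempty ((S ⧸ P) ≃ₗ[S] (S ⧸ P')) := by
  have s1 : IsSimpleModule S (S ⧸ P) := isSimpleModule_iff_isCoatom.2 hP.out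
  have s2 : IsSimpleModule S (S ⧸ P') := isSimpleModule_iff_isCoatom.2 hP'.out
  obtain ⟨N, _, _, j, h1, h2, h3⟩ := exists_indInj (R := S) (S ⧸ P)
  obtain ⟨N', _, _, j', h1', h2', h3'⟩ := exists_indInj (R := S) (S ⧸ P')
  have hne : ∀ {P : Ideal S} {N : Type u} [AddCommGroup N] [Module S N] (j : (S ⧸ P) →ₗ[S] N),
      Function.Injective j → (∃ w : S ⧸ P, e • w ≠ 0) → ∃ n : N, e • n ≠ 0 := by
    intro P N _ _ j hj hw
    obtain ⟨w, hw⟩ := hw
    refine ⟨j w, fun h0 => hw (hj ?_)⟩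
    rw [map_smul, h0, map_zero]
  obtain ⟨φ⟩ := huniq N N' h1 h1' (fun a ha n => hull_annihilated hreg I hI2 P hIP j h3 a ha n)
    (fun a ha n => hull_annihilated hreg I hI2 P' hIP' j' h3' a ha n) (hne j h2 hw)
    (hne j' h2' hw')
  exact simple_iso_of_hull_iso j h2 j' h2' h3' φ

include hreg hI2 in
theorem key_step (e : S) (huniq : UniqueInj I e) (P₀ : Ideal S) (hP₀ : P₀.IsMaximal)
    (hIP₀ : I ≤ P₀) (hw₀ : ∃ w : S ⧸ P₀, e • w ≠ 0) (J : Ideal S)
    (hJ2 : ∀ x ∈ J, ∀ r : S, x * r ∈ J) (hIJ : I ≤ J) (g : S) (hg : g * g = g) (hge : g * e = g)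
    (hgJ : g ∉ J) : (∀ j ∈ J, ∀ v : S ⧸ P₀, j • v = 0) ∧ ∃ v : S ⧸ P₀, g • v ≠ 0 := by
  obtain ⟨P, hP, hJP, w, hw⟩ := exists_maximal J hJ2 g hg hgJ
  have hew : e • w ≠ 0 := by
    intro h
    apply hw
    rw [← hge, mul_smul, h, smul_zero]
  obtain ⟨φ⟩ := simple_unique hreg I hI2 e huniq P P₀ hP hP₀ (hIJ.trans hJP) hIP₀ ⟨w, hew⟩ hw₀
  refine ⟨fun j hj v => ?_, φ w, fun h => hw ?_⟩
  · have h1 := quotient_killed J hJ2 P hJP j hj (φ.symm v)
    have h2 : φ (j • φ.symm v) = j • v := by rw [map_smul, LinearEquiv.apply_symm_apply]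
    rw [← h2, h1, map_zero]
  · rw [← map_smul] at h
    exact (map_eq_zero_iff φ φ.injective).1 h

end Ideals

section Artin

/-- a criterion for a ring not to be left artinian -/
theorem not_artinian {T : Type u} [Ring T] (ε f : ℕ → T) (h1 : ∀ n, ε (n + 1) * ε n = ε (n + 1))
    (h2 : ∀ n, ε n * f n = f n) (h3 : ∀ n, ε (n + 1) * f n = 0) (h4 : ∀ n, f n ≠ 0) :
    ¬ IsArtinianRing T := by
  intro hT
  let F : ℕ →o (Submodule T T)ᵒᵈ :=
    ⟨fun n => OrderDual.toDual (Submodule.span T {ε n}), monotone_nat_of_le_succ fun n => by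
      show Submodule.span T {ε (n + 1)} ≤ Submodule.span T {ε n}
      rw [Submodule.span_singleton_le_iff_mem, Submodule.mem_span_singleton]
      exact ⟨ε (n + 1), h1 n⟩⟩
  obtain ⟨n, hn⟩ := monotone_stabilizes_iff_artinian.2 hT F
  have h5 : Submodule.span T {ε n} = Submodule.span T {ε (n + 1)} := hn (n + 1) (Nat.le_succ n)
  have h6 : ε n ∈ Submodule.span T {ε (n + 1)} := by
    rw [← h5]
    exact Submodule.mem_span_singleton_self _
  obtain ⟨t, ht⟩ := Submodule.mem_span_singleton.1 h6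
  apply h4 n
  rw [← h2 n, ← ht, smul_eq_mul, mul_assoc, h3, mul_zero]

end Artin

section CornerQuotient

variable {S C : Type u} [Ring S] [Ring C] (ι : C →ₙ+* S) (P₀ : Ideal S)

/-- the elements of the corner that annihilate the module `S ⧸ P₀` -/
def annC : Ideal C where
  carrier := {c | ∀ v : S ⧸ P₀, ι c • v = 0}
  add_mem' := by
    intro a b ha hb v
    rw [map_add, add_smul, ha, hb, add_zero]
  zero_mem' := by
    intro v
    rw [map_zero, zero_smul]
  smul_mem' := by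
    intro r c hc v
    rw [smul_eq_mul, map_mul, mul_smul, hc, smul_zero]

theorem mem_annC (c : C) : c ∈ annC ι P₀ ↔ ∀ v : S ⧸ P₀, ι c • v = 0 := Iff.rfl

instance : (annC ι P₀).IsTwoSided where
  mul_mem_of_left := by
    intro a b ha v
    rw [map_mul, mul_smul, ha]

variable (hι : Function.Injective ι) (κ : S → C) (hκ : ∀ s, ι (κ s) = ι 1 * s * ι 1)
  (hreg : ∀ a : S, ∃ x : S, a * x * a = a)

include hι hκ hreg in
theorem corner_regular (c : C) : ∃ y : C, c * y * c = c := by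
  obtain ⟨x, hx⟩ := hreg (ι c)
  refine ⟨κ x, hι ?_⟩
  rw [map_mul, map_mul, hκ, mul_assoc, mul_assoc, mul_assoc, ι_one_mul, ← mul_assoc (ι c),
    ι_mul_one, ← mul_assoc, hx]

variable (I : Ideal S) (hI2 : ∀ x ∈ I, ∀ r : S, x * r ∈ I) (hI : NoAtom I) (heI : ι 1 ∉ I)
  (huniq : UniqueInj I (ι 1)) (hP₀ : P₀.IsMaximal) (hIP₀ : I ≤ P₀)
  (hw₀ : ∃ w : S ⧸ P₀, ι 1 • w ≠ 0)

include hw₀ in
theorem one_notMem_annC : (1 : C) ∉ annC ι P₀ := by
  intro h
  obtain ⟨w, hw⟩ := hw₀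
  exact hw (h w)

include hι hκ hreg hI2 huniq hP₀ hIP₀ hw₀ in
theorem corner_simple : IsSimpleRing (C ⧸ annC ι P₀) := by
  have hnt : Nontrivial (C ⧸ annC ι P₀) :=
    Ideal.Quotient.nontrivial_iff.2
      ((Ideal.ne_top_iff_one _).2 (one_notMem_annC ι P₀ hw₀))
  refine IsSimpleRing.of_eq_bot_or_eq_top fun K => ?_
  by_contra hcon
  push Not at hcon
  obtain ⟨hbot, htop⟩ := hcon
  have hex : ∃ x ∈ K, x ≠ 0 := by
    by_contra h
    push Not at h
    apply hbot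
    ext x
    rw [TwoSidedIdeal.mem_bot]
    exact ⟨h x, fun h0 => h0 ▸ K.zero_mem⟩
  obtain ⟨x, hxK, hx0⟩ := hex
  obtain ⟨c, rfl⟩ := Ideal.Quotient.mk_surjective x
  have hc : c ∉ annC ι P₀ := fun h => hx0 (Ideal.Quotient.eq_zero_iff_mem.2 h)
  let π : C →+* C ⧸ annC ι P₀ := Ideal.Quotient.mk _
  let J : Ideal S :=
    { carrier := {s | ∀ x y : S, π (κ (x * s * y)) ∈ K}
      add_mem' := by
        intro a b ha hb x y
        rw [mul_add, add_mul, κ_add ι hι κ hκ, map_add]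
        exact K.add_mem (ha x y) (hb x y)
      zero_mem' := by
        intro x y
        rw [mul_zero, zero_mul]
        have h := κ_add ι hι κ hκ 0 0
        rw [add_zero, left_eq_add] at h
        rw [h, map_zero]
        exact K.zero_mem
      smul_mem' := by
        intro r s hs x y
        rw [smul_eq_mul, ← mul_assoc]
        exact hs (x * r) y }
  have hJ : ∀ s, s ∈ J ↔ ∀ x y : S, π (κ (x * s * y)) ∈ K := fun s => Iff.rfl
  have hJ2 : ∀ x ∈ J, ∀ r : S, x * r ∈ J := by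
    intro s hs r x y
    have := (hJ s).1 hs x (r * y)
    have h2 : x * (s * r) * y = x * s * (r * y) := by simp only [mul_assoc]
    rw [h2]
    exact this
  have hIJ : I ≤ J := by
    intro s hs x y
    have h1 : κ (x * s * y) ∈ annC ι P₀ := by
      intro v
      rw [hκ]
      refine quotient_killed I hI2 P₀ hIP₀ _ ?_ v
      exact hI2 _ (I.mul_mem_left _ (hI2 _ (I.mul_mem_left _ hs) _)) _
    have h2 : π (κ (x * s * y)) = 0 := Ideal.Quotient.eq_zero_iff_mem.2 h1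
    rw [h2]
    exact K.zero_mem
  by_cases heJ : ι 1 ∈ J
  · apply htop
    rw [← TwoSidedIdeal.one_mem_iff]
    have := (hJ _).1 heJ 1 1
    rw [one_mul, mul_one, κ_ι ι hι κ hκ, map_one] at this
    exact this
  · have hee : ι 1 * ι 1 = ι 1 := ι_one_mul ι 1
    have h1 := (key_step hreg I hI2 (ι 1) huniq P₀ hP₀ hIP₀ hw₀ J hJ2 hIJ (ι 1) hee hee heJ).1
    apply hc
    intro v
    refine h1 (ι c) ?_ v
    intro x y
    have h2 : κ (x * ι c * y) = κ x * c * κ y := by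
      apply hι
      rw [hκ, map_mul, map_mul, hκ, hκ]
      have e1 : ι 1 * x * ι 1 * ι c = ι 1 * x * ι c := by rw [mul_assoc _ (ι 1), ι_one_mul]
      rw [e1]
      have e2 : ι 1 * x * ι c * (ι 1 * y * ι 1) = ι 1 * x * (ι c * ι 1) * y * ι 1 := by
        simp only [mul_assoc]
      rw [e2, ι_mul_one]
      simp only [mul_assoc]
    rw [h2, map_mul, map_mul]
    exact K.mul_mem_right _ _ (K.mul_mem_left _ _ hxK)

include hι hκ hreg hI2 hI heI huniq hP₀ hIP₀ hw₀ in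
/-- the chain of idempotents in the quotient of the corner -/
theorem corner_chain : ∃ ε f : ℕ → C ⧸ annC ι P₀,
    (∀ n, ε (n + 1) * ε n = ε (n + 1)) ∧ (∀ n, ε n * ε (n + 1) = ε (n + 1)) ∧
    (∀ n, ε n * f n = f n) ∧ (∀ n, f n * ε n = f n) ∧ (∀ n, ε (n + 1) * f n = 0) ∧
    (∀ n, f n * ε (n + 1) = 0) ∧ ∀ n, f n ≠ 0 := by
  have hee : ι 1 * ι 1 = ι 1 := ι_one_mul ι 1
  obtain ⟨E, hE0, hE⟩ := exists_tree hreg I hI2 hI ⟨ι 1, hee, heI⟩
  have hall : ∀ σ, ι 1 * (E σ).1 = (E σ).1 ∧ (E σ).1 * ι 1 = (E σ).1 := by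
    intro σ
    induction σ with
    | nil => rw [hE0]; exact ⟨hee, hee⟩
    | cons b σ ih =>
      obtain ⟨h1, h2⟩ := (hE σ).1 b
      constructor
      · rw [← h1, ← mul_assoc, ih.1]
      · conv_lhs => rw [← h2]
        rw [mul_assoc, ih.2, h2]
  have hκE : ∀ σ, ι (κ (E σ).1) = (E σ).1 := by
    intro σ
    rw [hκ, (hall σ).1, (hall σ).2]
  have hmul : ∀ σ τ, κ (E σ).1 * κ (E τ).1 = κ ((E σ).1 * (E τ).1) := by
    intro σ τ
    apply hι
    rw [map_mul, hκE, hκE, hκ, ← mul_assoc, (hall σ).1, mul_assoc, (hall τ).2]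
  have hκ0 : κ 0 = 0 := by
    have h := κ_add ι hι κ hκ 0 0
    rwa [add_zero, left_eq_add] at h
  let π : C →+* C ⧸ annC ι P₀ := Ideal.Quotient.mk _
  let ρ : ℕ → List Bool := fun n => List.replicate n true
  have hρ : ∀ n, ρ (n + 1) = true :: ρ n := fun n => rfl
  refine ⟨fun n => π (κ (E (ρ n)).1), fun n => π (κ (E (false :: ρ n)).1), fun n => ?_, fun n => ?_,
    fun n => ?_, fun n => ?_, fun n => ?_, fun n => ?_, fun n h0 => ?_⟩
  · show π (κ (E (true :: ρ n)).1) * π (κ (E (ρ n)).1) = π (κ (E (true :: ρ n)).1)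
    rw [← map_mul, hmul, ((hE (ρ n)).1 true).2]
  · show π (κ (E (ρ n)).1) * π (κ (E (true :: ρ n)).1) = π (κ (E (true :: ρ n)).1)
    rw [← map_mul, hmul, ((hE (ρ n)).1 true).1]
  · rw [← map_mul, hmul, ((hE (ρ n)).1 false).1]
  · rw [← map_mul, hmul, ((hE (ρ n)).1 false).2]
  · rw [← map_mul, hmul, hρ, (hE (ρ n)).2.1, hκ0, map_zero]
  · rw [← map_mul, hmul, hρ, (hE (ρ n)).2.2, hκ0, map_zero]
  · have h1 : κ (E (false :: ρ n)).1 ∈ annC ι P₀ := Ideal.Quotient.eq_zero_iff_mem.1 h0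
    obtain ⟨v, hv⟩ := (key_step hreg I hI2 (ι 1) huniq P₀ hP₀ hIP₀ hw₀ I hI2 le_rfl
      (E (false :: ρ n)).1 (E (false :: ρ n)).2.1 (hall _).2 (E (false :: ρ n)).2.2).2
    apply hv
    have := h1 v
    rwa [hκE] at this

include hι hκ hreg hI2 huniq hIP₀ in
/-- any two indecomposable injective modules over the quotient of the corner are isomorphic -/
theorem corner_unique {B : Type u} [Ring B] (g : C →+* B) (hg : Function.Surjective g)
    (hker : ∀ c ∈ annC ι P₀, g c = 0)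
    (N N' : Type u) [AddCommGroup N] [AddCommGroup N'] [Module B N] [Module B N']
    (hN : IndInj B N) (hN' : IndInj B N') : Nonempty (N ≃ₗ[B] N') := by
  let m1 : Module C N := Module.compHom N g
  let m2 : Module C N' := Module.compHom N' g
  have hc1 : ∀ (c : C) (n : N), g c • n = c • n := fun _ _ => rfl
  have hc2 : ∀ (c : C) (n : N'), g c • n = c • n := fun _ _ => rfl
  have hregC : ∀ c : C, ∃ y : C, c * y * c = c := corner_regular ι hι κ hκ hreg
  have i1 : IndInj C N := pull_indInj g hg hc1 hregC hN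
  have i2 : IndInj C N' := pull_indInj g hg hc2 hregC hN'
  have := i1.nontrivial
  have := i2.nontrivial
  have hIann : ∀ c : C, ι c ∈ I → c ∈ annC ι P₀ := fun c hc v =>
    quotient_killed I hI2 P₀ hIP₀ _ hc v
  obtain ⟨ψ⟩ := huniq (Coind ι N) (Coind ι N') (coind_indInj ι hι κ hκ i1)
    (coind_indInj ι hι κ hκ i2)
    (fun a ha n => coind_killed ι κ hκ hreg I hI2
      (fun c hc q => by rw [← hc1, hker c (hIann c hc), zero_smul]) a ha n)
    (fun a ha n => coind_killed ι κ hκ hreg I hI2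
      (fun c hc q => by rw [← hc2, hker c (hIann c hc), zero_smul]) a ha n)
    (coind_e_ne_zero ι hι κ hκ) (coind_e_ne_zero ι hι κ hκ)
  obtain ⟨θ⟩ := coind_iso ι hι κ hκ ψ
  refine ⟨{ toFun := θ, invFun := θ.symm, left_inv := θ.left_inv, right_inv := θ.right_inv
            map_add' := map_add θ, map_smul' := fun b n => ?_ }⟩
  obtain ⟨c, rfl⟩ := hg b
  exact map_smul θ c n

end CornerQuotient

section Final

/-- the inclusion of the opposite of the corner into the opposite ring -/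
def cornerOp {R : Type u} [Ring R] {e : R} (he : IsIdempotentElem e) :
    (he.Corner)ᵐᵒᵖ →ₙ+* Rᵐᵒᵖ where
  toFun c := MulOpposite.op c.unop.1
  map_mul' _ _ := rfl
  map_zero' := rfl
  map_add' _ _ := rfl

theorem cornerOp_one {R : Type u} [Ring R] {e : R} (he : IsIdempotentElem e) :
    cornerOp he 1 = MulOpposite.op e := rfl

/-- the data obtained from an isolated point -/
theorem isolated_data (R : Type u) [Ring R] (hreg : ∀ a : R, ∃ x : R, a * x * a = a)
    (hCB : ∃ α : Ordinal.{u + 1}, cb (Zg R) α = ∅) (htop : loewy Rᵐᵒᵖ ≠ ⊤) :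
    ∃ e : R, e * e = e ∧ MulOpposite.op e ∉ loewy Rᵐᵒᵖ ∧
      UniqueInj (loewy Rᵐᵒᵖ) (MulOpposite.op e) := by
  have hreg' : ∀ a : Rᵐᵒᵖ, ∃ x : Rᵐᵒᵖ, a * x * a = a := by
    intro a
    obtain ⟨x, hx⟩ := hreg a.unop
    refine ⟨MulOpposite.op x, MulOpposite.unop_injective ?_⟩
    simpa [mul_assoc] using hx
  set I : Ideal Rᵐᵒᵖ := loewy Rᵐᵒᵖ with hIdef
  have hI2 : ∀ x ∈ I, ∀ r : Rᵐᵒᵖ, x * r ∈ I := fun x hx r => loewy_mul_mem hx r
  let 𝒮 : Set (Zg R) := {x | ∃ N : Point R, Zg.mk N = x ∧ ∀ a ∈ I, ∀ n : N.carrier, a • n = 0}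
  have h𝒮 : 𝒮.Nonempty := by
    obtain ⟨P, hP, hIP⟩ := Ideal.exists_le_maximal I htop
    have : IsSimpleModule Rᵐᵒᵖ (Rᵐᵒᵖ ⧸ P) := isSimpleModule_iff_isCoatom.2 hP.out
    obtain ⟨N, _, _, j, h1, h2, h3⟩ := exists_indInj (R := Rᵐᵒᵖ) (Rᵐᵒᵖ ⧸ P)
    exact ⟨Zg.mk ⟨N, h1⟩, ⟨N, h1⟩, rfl, fun a ha n => hull_annihilated hreg' I hI2 P hIP j h3 a ha n⟩
  obtain ⟨α, hα⟩ := hCB
  obtain ⟨x₀, hx₀, U, hU, hUx⟩ := exists_isolated hα 𝒮 h𝒮
  have hx₀U : x₀ ∈ U := by
    have : x₀ ∈ U ∩ 𝒮 := by rw [hUx]; rfl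
    exact this.1
  obtain ⟨_, ⟨e, he, rfl⟩, hx₀e, heU⟩ := (isTopologicalBasis hreg).exists_subset_of_mem_open hx₀U hU
  refine ⟨e, he, ?_, ?_⟩
  · intro h
    obtain ⟨N, rfl, hN⟩ := hx₀
    obtain ⟨n, hn⟩ := (mem_basicOpen_mk N).1 hx₀e
    exact hn (hN _ h n)
  · intro N N' _ _ _ _ hN hN' hk hk' hne hne'
    have h1 : ∀ x ∈ 𝒮, x ∈ basicOpen e → x = x₀ := by
      intro x hx hxe
      have : x ∈ U ∩ 𝒮 := ⟨heU hxe, hx⟩
      rwa [hUx] at this
    have h2 := h1 (Zg.mk ⟨N, hN⟩) ⟨⟨N, hN⟩, rfl, hk⟩ ((mem_basicOpen_mk _).2 hne)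
    have h3 := h1 (Zg.mk ⟨N', hN'⟩) ⟨⟨N', hN'⟩, rfl, hk'⟩ ((mem_basicOpen_mk _).2 hne')
    exact Quotient.exact (h2.trans h3.symm)

/-- **Reduction.**  A von Neumann regular ring `R` that is not semiartinian and has a scattered
Ziegler spectrum has a corner `e R e` with a quotient that is simple, not artinian, and has
exactly one indecomposable injective right module. -/
theorem reduction (R : Type u) [Ring R] (hreg : ∀ a : R, ∃ x : R, a * x * a = a)
    (hCB : ∃ α : Ordinal.{u + 1}, cb (Zg R) α = ∅) (hns : ¬ Semiartinian.{u, u} R) :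
    ∃ (e : R) (he : IsIdempotentElem e) (T : Type u) (_ : Ring T) (g : he.Corner →+* T),
      Function.Surjective g ∧ (∀ a : T, ∃ x : T, a * x * a = a) ∧ IsSimpleRing T ∧
      ¬ IsArtinianRing T ∧ ∃ x : Zg T, ∀ y : Zg T, y = x := by
  have hreg' : ∀ a : Rᵐᵒᵖ, ∃ x : Rᵐᵒᵖ, a * x * a = a := by
    intro a
    obtain ⟨x, hx⟩ := hreg a.unop
    refine ⟨MulOpposite.op x, MulOpposite.unop_injective ?_⟩
    simpa [mul_assoc] using hx
  have htop : loewy Rᵐᵒᵖ ≠ ⊤ := by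
    intro h
    apply hns
    intro M _ _ hM
    exact exists_simple_of_loewy_eq_top h M
  obtain ⟨e, he, heI, huniq⟩ := isolated_data R hreg hCB htop
  set I : Ideal Rᵐᵒᵖ := loewy Rᵐᵒᵖ with hIdef
  have hI2 : ∀ x ∈ I, ∀ r : Rᵐᵒᵖ, x * r ∈ I := fun x hx r => loewy_mul_mem hx r
  have hee : MulOpposite.op e * MulOpposite.op e = MulOpposite.op e := by
    rw [← MulOpposite.op_mul, he]
  obtain ⟨P₀, hP₀, hIP₀, hw₀⟩ := exists_maximal I hI2 _ hee heI
  have he' : IsIdempotentElem e := he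
  let C : Type u := (he'.Corner)ᵐᵒᵖ
  let ι : C →ₙ+* Rᵐᵒᵖ := cornerOp he'
  have hι1 : ι 1 = MulOpposite.op e := rfl
  have hι : Function.Injective ι := by
    intro a b hab
    apply MulOpposite.unop_injective
    apply Subtype.ext
    exact MulOpposite.op_injective hab
  let κ : Rᵐᵒᵖ → C := fun s => MulOpposite.op ⟨e * s.unop * e, ⟨s.unop, rfl⟩⟩
  have hκ : ∀ s, ι (κ s) = ι 1 * s * ι 1 := by
    intro s
    apply MulOpposite.unop_injective
    show e * s.unop * e = e * (s.unop * e)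
    rw [mul_assoc]
  let T₀ : Type u := C ⧸ annC ι P₀
  let T : Type u := T₀ᵐᵒᵖ
  have hsimple₀ : IsSimpleRing T₀ := corner_simple ι P₀ hι κ hκ hreg' I hI2 huniq hP₀ hIP₀ hw₀
  obtain ⟨ε, f, h1, h2, h3, h4, h5, h6, h7⟩ :=
    corner_chain ι P₀ hι κ hκ hreg' I hI2 noAtom_loewy heI huniq hP₀ hIP₀ hw₀
  have hregC : ∀ c : C, ∃ y : C, c * y * c = c := corner_regular ι hι κ hκ hreg'
  have hregT₀ : ∀ t : T₀, ∃ y : T₀, t * y * t = t := by
    intro t
    obtain ⟨c, rfl⟩ := Ideal.Quotient.mk_surjective t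
    obtain ⟨y, hy⟩ := hregC c
    exact ⟨Ideal.Quotient.mk _ y, by rw [← map_mul, ← map_mul, hy]⟩
  have hregT : ∀ t : T, ∃ y : T, t * y * t = t := by
    intro t
    obtain ⟨y, hy⟩ := hregT₀ t.unop
    refine ⟨MulOpposite.op y, MulOpposite.unop_injective ?_⟩
    show t.unop * (y * t.unop) = t.unop
    rw [← mul_assoc]
    exact hy
  have hsimple : IsSimpleRing T := inferInstance
  -- the homomorphism
  let g : he'.Corner →+* T :=
    { toFun := fun c => MulOpposite.op (Ideal.Quotient.mk (annC ι P₀) (MulOpposite.op c))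
      map_one' := rfl
      map_mul' := fun _ _ => rfl
      map_zero' := rfl
      map_add' := fun _ _ => rfl }
  have hg : Function.Surjective g := by
    intro t
    obtain ⟨c, hc⟩ := Ideal.Quotient.mk_surjective t.unop
    refine ⟨c.unop, ?_⟩
    show MulOpposite.op (Ideal.Quotient.mk (annC ι P₀) (MulOpposite.op c.unop)) = t
    rw [MulOpposite.op_unop, hc, MulOpposite.op_unop]
  let G : C →+* Tᵐᵒᵖ :=
    { toFun := fun c => MulOpposite.op (MulOpposite.op (Ideal.Quotient.mk (annC ι P₀) c))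
      map_one' := rfl
      map_mul' := fun _ _ => rfl
      map_zero' := rfl
      map_add' := fun _ _ => rfl }
  have hG : Function.Surjective G := by
    intro t
    obtain ⟨c, hc⟩ := Ideal.Quotient.mk_surjective t.unop.unop
    refine ⟨c, ?_⟩
    show MulOpposite.op (MulOpposite.op (Ideal.Quotient.mk (annC ι P₀) c)) = t
    rw [hc, MulOpposite.op_unop, MulOpposite.op_unop]
  have hGker : ∀ c ∈ annC ι P₀, G c = 0 := by
    intro c hc
    show MulOpposite.op (MulOpposite.op (Ideal.Quotient.mk (annC ι P₀) c)) = 0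
    rw [Ideal.Quotient.eq_zero_iff_mem.2 hc]
    rfl
  refine ⟨e, he', T, inferInstance, g, hg, hregT, hsimple, ?_, ?_⟩
  · refine not_artinian (fun n => MulOpposite.op (ε n)) (fun n => MulOpposite.op (f n))
      (fun n => ?_) (fun n => ?_) (fun n => ?_) (fun n => ?_)
    · show MulOpposite.op (ε n * ε (n + 1)) = _
      rw [h2]
    · show MulOpposite.op (f n * ε n) = _
      rw [h4]
    · show MulOpposite.op (f n * ε (n + 1)) = _
      rw [h6]
      rfl
    · intro h0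
      exact h7 n (MulOpposite.op_injective h0)
  · have hnt : Nontrivial Tᵐᵒᵖ := inferInstance
    obtain ⟨P, hP⟩ := Ideal.exists_maximal Tᵐᵒᵖ
    have : IsSimpleModule Tᵐᵒᵖ (Tᵐᵒᵖ ⧸ P) := isSimpleModule_iff_isCoatom.2 hP.out
    obtain ⟨N, _, _, j, hN, -, -⟩ := exists_indInj (R := Tᵐᵒᵖ) (Tᵐᵒᵖ ⧸ P)
    refine ⟨Zg.mk ⟨N, hN⟩, fun y => ?_⟩
    obtain ⟨N', rfl⟩ : ∃ N : Point T, Zg.mk N = y := Quotient.exists_rep y
    apply Quotient.sound
    exact corner_unique ι P₀ hι κ hκ hreg' I hI2 huniq hIP₀ G hG hGker N'.carrier N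
      N'.indInj hN

/-- the converse: a simple regular ring with one indecomposable injective module has a scattered
spectrum, and is not semiartinian unless it is artinian -/
theorem converse (T : Type u) [Ring T] [IsSimpleRing T] (hT : ¬ IsArtinianRing T)
    (hx : ∃ x : Zg T, ∀ y : Zg T, y = x) :
    (∃ α : Ordinal.{u + 1}, cb (Zg T) α = ∅) ∧ ¬ Semiartinian.{u, u} T := by
  constructor
  · obtain ⟨x, hx⟩ := hx
    refine ⟨0 + 1, ?_⟩
    unfold cb
    rw [Ordinal.limitRecOn_add_one, Ordinal.limitRecOn_zero, Set.eq_empty_iff_forall_notMem]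
    rintro y ⟨-, hy⟩
    apply hy
    refine ⟨Set.univ, isOpen_univ, ?_⟩
    ext z
    simp only [Set.univ_inter, Set.mem_univ, Set.mem_singleton_iff, true_iff]
    rw [hx z, hx y]
  · intro h
    obtain ⟨Z, hZ⟩ := h Tᵐᵒᵖ inferInstance
    have h1 : IsAtom Z := isSimpleModule_iff_isAtom.1 hZ
    have h2 : IsSemisimpleRing Tᵐᵒᵖ := ((IsSimpleRing.tfae (R := Tᵐᵒᵖ)).out 2 0).1
      (show ∃ I : Ideal Tᵐᵒᵖ, IsAtom I from ⟨Z, h1⟩)
    have h3 : IsSemisimpleRing T := isSemisimpleRing_mulOpposite_iff.1 h2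
    exact hT inferInstance

end Final

end Pool.Agent.H36.KG
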