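import Pool.Agent.H36.KG.Tree

/-! # The Ziegler spectrum of a von Neumann regular ring, Cantor-Bendixson rank, main theorem -/

set_option autoImplicit false

universe u v w

namespace Pool.Agent.H36.KG

open Cardinal

/-- an indecomposable injective right `R`-module -/
structure Point (R : Type u) [Ring R] : Type (u + 1) where
  /-- the module -/
  carrier : Type u
  [grp : AddCommGroup carrier]
  [mod : Module Rᵐᵒᵖ carrier]
  indInj : IndInj Rᵐᵒᵖ carrier

attribute [instance] Point.grp Point.mod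

/-- isomorphism of indecomposable injective modules -/
instance Point.setoid (R : Type u) [Ring R] : Setoid (Point R) where
  r N N' := Nonempty (N.carrier ≃ₗ[Rᵐᵒᵖ] N'.carrier)
  iseqv :=
    ⟨fun _ => ⟨LinearEquiv.refl _ _⟩, fun ⟨f⟩ => ⟨f.symm⟩, fun ⟨f⟩ ⟨g⟩ => ⟨f.trans g⟩⟩

/-- the set of points of the Ziegler spectrum of a von Neumann regular ring: isomorphism classes
of indecomposable injective right modules -/
def Zg (R : Type u) [Ring R] : Type (u + 1) := Quotient (Point.setoid R)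

/-- the isomorphism class of `N` -/
def Zg.mk {R : Type u} [Ring R] (N : Point R) : Zg R := Quotient.mk _ N

/-- the set of the (classes of) modules `N` with `N e ≠ 0` -/
def basicOpen {R : Type u} [Ring R] (e : R) : Set (Zg R) :=
  {x | ∃ N : Point R, Zg.mk N = x ∧ ∃ n : N.carrier, MulOpposite.op e • n ≠ 0}

/-- the topology of the Ziegler spectrum, generated by the sets `basicOpen e`, `e` idempotent -/
instance (R : Type u) [Ring R] : TopologicalSpace (Zg R) :=
  TopologicalSpace.generateFrom {U | ∃ e : R, e * e = e ∧ U = basicOpen e}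

/-- `A` minus its isolated points (in the relative topology) -/
def cbDeriv {X : Type v} [TopologicalSpace X] (A : Set X) : Set X :=
  {x ∈ A | ¬ ∃ U : Set X, IsOpen U ∧ U ∩ A = {x}}

/-- the Cantor-Bendixson derivatives `X^(α)` -/
noncomputable def cb (X : Type v) [TopologicalSpace X] (α : Ordinal.{w}) : Set X :=
  Ordinal.limitRecOn α (Set.univ : Set X) (fun _ A => cbDeriv A)
    (fun o _ IH => ⋂ (o' : Ordinal.{w}) (h : o' < o), IH o' h)

/-- If some Cantor-Bendixson derivative is empty then every nonempty set has an isolated point. -/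
theorem exists_isolated {X : Type v} [TopologicalSpace X] {α : Ordinal.{w}} (h : cb X α = ∅)
    (A : Set X) (hA : A.Nonempty) : ∃ x ∈ A, ∃ U : Set X, IsOpen U ∧ U ∩ A = {x} := by
  by_contra hcon
  push Not at hcon
  have key : ∀ β : Ordinal.{w}, A ⊆ cb X β := by
    intro β
    induction β using Ordinal.limitRecOn with
    | zero =>
      unfold cb
      rw [Ordinal.limitRecOn_zero]
      exact Set.subset_univ _
    | add_one β ih =>
      have e : cb X (β + 1) = cbDeriv (cb X β) := by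
        unfold cb
        rw [Ordinal.limitRecOn_add_one]
      rw [e]
      intro x hx
      refine ⟨ih hx, ?_⟩
      rintro ⟨U, hU, hUx⟩
      apply hcon x hx U hU
      apply Set.Subset.antisymm
      · intro y hy
        have : y ∈ U ∩ cb X β := ⟨hy.1, ih hy.2⟩
        rwa [hUx] at this
      · intro y hy
        rw [Set.mem_singleton_iff] at hy
        subst hy
        have : y ∈ U ∩ cb X β := by rw [hUx]; rfl
        exact ⟨this.1, hx⟩
    | limit β hβ ih =>
      have e : cb X β = ⋂ (o' : Ordinal.{w}) (_ : o' < β), cb X o' := by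
        unfold cb
        rw [Ordinal.limitRecOn_limit _ _ _ _ hβ]
      rw [e]
      exact Set.subset_iInter₂ fun o ho => ih o ho
  obtain ⟨x, hx⟩ := hA
  have := key α hx
  rw [h] at this
  exact this

section

variable {R : Type u} [Ring R]

theorem mem_basicOpen_mk {e : R} (N : Point R) :
    Zg.mk N ∈ basicOpen e ↔ ∃ n : N.carrier, MulOpposite.op e • n ≠ 0 := by
  constructor
  · rintro ⟨N', hN', n, hn⟩
    obtain ⟨φ⟩ : Nonempty (N'.carrier ≃ₗ[Rᵐᵒᵖ] N.carrier) := Quotient.exact hN'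
    refine ⟨φ n, fun h => hn ?_⟩
    rw [← map_smul] at h
    exact (map_eq_zero_iff φ φ.injective).1 h
  · rintro ⟨n, hn⟩
    exact ⟨N, rfl, n, hn⟩

/-- The sets `basicOpen e` are a basis of the topology. -/
theorem isTopologicalBasis (hreg : ∀ a : R, ∃ x : R, a * x * a = a) :
    TopologicalSpace.IsTopologicalBasis
      {U : Set (Zg R) | ∃ e : R, e * e = e ∧ U = basicOpen e} where
  exists_subset_inter := by
    rintro _ ⟨e, he, rfl⟩ _ ⟨f, hf, rfl⟩ x ⟨hxe, hxf⟩
    obtain ⟨N, rfl⟩ : ∃ N : Point R, Zg.mk N = x := Quotient.exists_rep x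
    obtain ⟨n, hn⟩ := (mem_basicOpen_mk N).1 hxe
    obtain ⟨m, hm⟩ := (mem_basicOpen_mk N).1 hxf
    obtain ⟨r, s, hrs, hr0⟩ := N.indInj.uniform _ _ hn hm
    -- `r • f • m = s • e • n ≠ 0`
    obtain ⟨y₀, hy₀⟩ := hreg (MulOpposite.unop (r * MulOpposite.op f))
    have hy : r * MulOpposite.op f * MulOpposite.op y₀ * (r * MulOpposite.op f)
        = r * MulOpposite.op f := by
      apply MulOpposite.unop_injective
      simpa [mul_assoc] using hy₀
    set y := MulOpposite.op y₀ with hydef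
    set c : Rᵐᵒᵖ := MulOpposite.op f * (y * s) * MulOpposite.op e with hc
    have hcn : c • n ≠ 0 := by
      intro h0
      apply hr0
      have h1 : r • MulOpposite.op f • m
          = (r * MulOpposite.op f * y * (r * MulOpposite.op f)) • m := by
        rw [hy, mul_smul]
      have h2 : (r * MulOpposite.op f * y * (r * MulOpposite.op f)) • m = r • (c • n) := by
        rw [mul_smul (r * MulOpposite.op f * y), mul_smul r (MulOpposite.op f) m, hrs, hc]
        simp only [mul_smul]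
      rw [h1, h2, h0, smul_zero]
    obtain ⟨z₀, hz₀⟩ := hreg (MulOpposite.unop c)
    have hz : c * MulOpposite.op z₀ * c = c := by
      apply MulOpposite.unop_injective
      simpa [mul_assoc] using hz₀
    set g : Rᵐᵒᵖ := MulOpposite.op z₀ * c with hg
    have hgg : g * g = g := by
      rw [hg, mul_assoc, ← mul_assoc c, hz]
    refine ⟨basicOpen (MulOpposite.unop g), ⟨_, ?_, rfl⟩, ?_, ?_⟩
    · rw [← MulOpposite.unop_mul, hgg]
    · rw [mem_basicOpen_mk]
      refine ⟨n, fun h0 => hcn ?_⟩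
      rw [MulOpposite.op_unop] at h0
      have : c • n = c • g • n := by
        rw [← mul_smul, hg, ← mul_assoc, hz]
      rw [this, h0, smul_zero]
    · rintro x' hx'
      obtain ⟨N', rfl⟩ : ∃ N : Point R, Zg.mk N = x' := Quotient.exists_rep x'
      obtain ⟨n', hn'⟩ := (mem_basicOpen_mk N').1 hx'
      rw [MulOpposite.op_unop, hg, hc] at hn'
      refine ⟨(mem_basicOpen_mk N').2 ⟨n', fun h0 => hn' ?_⟩,
        (mem_basicOpen_mk N').2 ⟨(y * s) • MulOpposite.op e • n', fun h0 => hn' ?_⟩⟩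
      · rw [mul_smul, mul_smul, h0, smul_zero, smul_zero]
      · rw [mul_smul, mul_smul, mul_smul, h0, smul_zero]
  sUnion_eq := by
    rw [Set.eq_univ_iff_forall]
    intro x
    obtain ⟨N, rfl⟩ : ∃ N : Point R, Zg.mk N = x := Quotient.exists_rep x
    have := N.indInj.nontrivial
    obtain ⟨n, hn⟩ := exists_ne (0 : N.carrier)
    refine ⟨basicOpen 1, ⟨1, by simp, rfl⟩, (mem_basicOpen_mk N).2 ⟨n, ?_⟩⟩
    simpa using hn
  eq_generateFrom := rfl

/-- the hull of a simple module annihilated by the two-sided ideal `I` is annihilated by `I` -/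
theorem hull_annihilated {S : Type u} [Ring S] (hreg : ∀ a : S, ∃ x : S, a * x * a = a)
    (I : Ideal S) (hI2 : ∀ x ∈ I, ∀ r : S, x * r ∈ I) (M : Ideal S) (hIM : I ≤ M)
    {N : Type u} [AddCommGroup N] [Module S N] (j : (S ⧸ M) →ₗ[S] N)
    (hj : Ess (LinearMap.range j) ⊤) (a : S) (ha : a ∈ I) (n : N) : a • n = 0 := by
  by_contra h0
  obtain ⟨r, ⟨s, hs⟩, hr0⟩ := hj.2 (a • n) trivial h0
  set b := r * a with hb
  have hbI : b ∈ I := I.mul_mem_left r ha
  obtain ⟨y, hy⟩ := hreg b
  have h1 : r • a • n = (b * y) • (r • a • n) := by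
    rw [← mul_smul r a n, ← hb, ← mul_smul, hy]
  apply hr0
  rw [h1, ← hs, ← map_smul]
  obtain ⟨t, rfl⟩ := Submodule.Quotient.mk_surjective M s
  have h2 : (b * y) • (Submodule.Quotient.mk t : S ⧸ M) = 0 := by
    rw [← Submodule.Quotient.mk_smul, Submodule.Quotient.mk_eq_zero, smul_eq_mul]
    exact hIM (hI2 _ (hI2 _ hbI _) _)
  rw [h2, map_zero]

/-- simple modules with isomorphic hulls are isomorphic -/
theorem simple_iso_of_hull_iso {S : Type u} [Ring S] {A A' N N' : Type u} [AddCommGroup A]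
    [Module S A] [IsSimpleModule S A] [AddCommGroup A'] [Module S A'] [IsSimpleModule S A']
    [AddCommGroup N] [Module S N] [AddCommGroup N'] [Module S N'] (j : A →ₗ[S] N)
    (hji : Function.Injective j) (j' : A' →ₗ[S] N') (hji' : Function.Injective j')
    (hj' : Ess (LinearMap.range j') ⊤) (φ : N ≃ₗ[S] N') : Nonempty (A ≃ₗ[S] A') := by
  have := IsSimpleModule.nontrivial S A
  obtain ⟨a, ha⟩ := exists_ne (0 : A)
  have hφa : φ (j a) ≠ 0 := by
    intro h
    apply ha
    apply hji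
    rw [map_zero]
    exact (map_eq_zero_iff φ φ.injective).1 h
  obtain ⟨r, ⟨a', ha'⟩, hr0⟩ := hj'.2 (φ (j a)) trivial hφa
  -- the two simple submodules of `N'`
  let k : A →ₗ[S] N' := φ.toLinearMap.comp j
  have hk : Function.Injective k := φ.injective.comp hji
  have e1 : A ≃ₗ[S] LinearMap.range k := LinearEquiv.ofInjective k hk
  have e2 : A' ≃ₗ[S] LinearMap.range j' := LinearEquiv.ofInjective j' hji'
  have s1 : IsSimpleModule S (LinearMap.range k) := IsSimpleModule.congr e1.symm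
  have s2 : IsSimpleModule S (LinearMap.range j') := IsSimpleModule.congr e2.symm
  have hmem1 : r • φ (j a) ∈ LinearMap.range k := ⟨r • a, by simp [k]⟩
  have hmem2 : r • φ (j a) ∈ LinearMap.range j' := ⟨a', ha'⟩
  have a1 : IsAtom (LinearMap.range k) := isSimpleModule_iff_isAtom.1 s1
  have a2 : IsAtom (LinearMap.range j') := isSimpleModule_iff_isAtom.1 s2
  have hne : LinearMap.range k ⊓ LinearMap.range j' ≠ ⊥ := by
    intro h
    have : r • φ (j a) ∈ LinearMap.range k ⊓ LinearMap.range j' := ⟨hmem1, hmem2⟩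
    rw [h] at this
    exact hr0 ((Submodule.mem_bot S).1 this)
  have heq : LinearMap.range k = LinearMap.range j' := by
    have h1 : LinearMap.range k ⊓ LinearMap.range j' = LinearMap.range k :=
      (a1.le_iff.1 inf_le_left).resolve_left hne
    have h2 : LinearMap.range k ⊓ LinearMap.range j' = LinearMap.range j' :=
      (a2.le_iff.1 inf_le_right).resolve_left hne
    rw [← h1, h2]
  exact ⟨(e1.trans (LinearEquiv.ofEq _ _ heq)).trans e2.symm⟩

theorem mk_closure_lt {M : Type u} [Monoid M] (s : Set M) (hs : #s < 𝔠) :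
    #(Submonoid.closure s : Submonoid M) < 𝔠 := by
  have h1 : #(Submonoid.closure s : Submonoid M) ≤ #(FreeMonoid s) := by
    rw [Submonoid.closure_eq_mrange]
    exact mk_range_le (f := FreeMonoid.lift ((↑) : s → M))
  refine h1.trans_lt ((mk_list_le_max s).trans_lt (max_lt aleph0_lt_continuum hs))

/-- a central element acts as an endomorphism -/
def centralEnd {S : Type u} [Ring S] (V : Type u) [AddCommGroup V] [Module S V] (z : S)
    (hz : ∀ s : S, z * s = s * z) : Module.End S V where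
  toFun v := z • v
  map_add' := smul_add z
  map_smul' s v := by
    rw [RingHom.id_apply, ← mul_smul, hz, mul_smul]

/-- every simple right `R`-module is generated, as a module over its endomorphism ring, by fewer
than `2 ^ ℵ₀` elements -/
def SmallSimples (R : Type u) [Ring R] : Prop :=
  ∀ (V : Type u) [AddCommGroup V] [Module Rᵐᵒᵖ V] [IsSimpleModule Rᵐᵒᵖ V],
    ∃ W : Set V, #W < 𝔠 ∧ Submodule.span (Module.End Rᵐᵒᵖ V) W = ⊤

/-- `R` is generated, as a ring, by its centre together with fewer than `2 ^ ℵ₀` elements -/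
def SmallOverCentre (R : Type u) [Ring R] : Prop :=
  ∃ s : Set R, #s < 𝔠 ∧ Subring.closure ((Subring.center R : Set R) ∪ s) = ⊤

/-- `R` is (right) semiartinian: every nonzero right module has a simple submodule -/
def Semiartinian (R : Type u) [Ring R] : Prop :=
  ∀ (M : Type v) [AddCommGroup M] [Module Rᵐᵒᵖ M], Nontrivial M →
    ∃ T : Submodule Rᵐᵒᵖ M, IsSimpleModule Rᵐᵒᵖ T

theorem SmallOverCentre.smallSimples {R : Type u} [Ring R] (h : SmallOverCentre R) :
    SmallSimples R := by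
  classical
  intro V _ _ _
  obtain ⟨s, hs, hgen⟩ := h
  have : Nontrivial V := IsSimpleModule.nontrivial Rᵐᵒᵖ V
  obtain ⟨w₀, hw₀⟩ := exists_ne (0 : V)
  let s' : Set Rᵐᵒᵖ := MulOpposite.op '' s
  have hs' : #s' < 𝔠 := mk_image_le.trans_lt hs
  let W : Set V := (fun m : Rᵐᵒᵖ => m • w₀) '' (Submonoid.closure s' : Set Rᵐᵒᵖ)
  have hW : #W < 𝔠 := mk_image_le.trans_lt (mk_closure_lt s' hs')
  refine ⟨W, hW, ?_⟩
  set Y := Submodule.span (Module.End Rᵐᵒᵖ V) W with hY
  have hstab : ∀ r : R, ∀ y ∈ Y, MulOpposite.op r • y ∈ Y := by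
    intro r
    have hr : r ∈ Subring.closure ((Subring.center R : Set R) ∪ s) := by
      rw [hgen]; trivial
    induction hr using Subring.closure_induction with
    | mem x hx =>
      rcases hx with hx | hx
      · intro y hy
        have hx' : ∀ t : Rᵐᵒᵖ, MulOpposite.op x * t = t * MulOpposite.op x := by
          intro t
          apply MulOpposite.unop_injective
          have := (Subring.mem_center_iff.1 hx) t.unop
          simpa using this
        exact Y.smul_mem (centralEnd V (MulOpposite.op x) hx') hy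
      · intro y hy
        rw [hY] at hy
        induction hy using Submodule.span_induction with
        | mem y hy =>
          obtain ⟨m, hm, rfl⟩ := hy
          refine Submodule.subset_span ⟨MulOpposite.op x * m, ?_, ?_⟩
          · exact Submonoid.mul_mem _ (Submonoid.subset_closure ⟨x, hx, rfl⟩) hm
          · exact mul_smul _ _ _
        | zero => rw [smul_zero]; exact Y.zero_mem
        | add a b _ _ ha hb => rw [smul_add]; exact Y.add_mem ha hb
        | smul d a _ ha =>
          have : MulOpposite.op x • (d • a) = d • (MulOpposite.op x • a) := by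
            show MulOpposite.op x • (d a) = d (MulOpposite.op x • a)
            rw [map_smul]
          rw [this]
          exact Y.smul_mem d ha
    | zero => intro y _; rw [MulOpposite.op_zero, zero_smul]; exact Y.zero_mem
    | one => intro y hy; rw [MulOpposite.op_one, one_smul]; exact hy
    | add a b _ _ ha hb =>
      intro y hy
      rw [MulOpposite.op_add, add_smul]
      exact Y.add_mem (ha y hy) (hb y hy)
    | neg a _ ha =>
      intro y hy
      rw [MulOpposite.op_neg, neg_smul]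
      exact Y.neg_mem (ha y hy)
    | mul a b _ _ ha hb =>
      intro y hy
      rw [MulOpposite.op_mul, mul_smul]
      exact hb _ (ha y hy)
  have hw₀Y : w₀ ∈ Y := Submodule.subset_span ⟨1, Submonoid.one_mem _, one_smul _ _⟩
  rw [eq_top_iff]
  intro v _
  have hspan : Submodule.span Rᵐᵒᵖ {w₀} = ⊤ := by
    rcases eq_bot_or_eq_top (Submodule.span Rᵐᵒᵖ {w₀}) with h | h
    · exact absurd (Submodule.span_singleton_eq_bot.1 h) hw₀
    · exact h
  have hv : v ∈ Submodule.span Rᵐᵒᵖ {w₀} := by rw [hspan]; trivial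
  obtain ⟨t, rfl⟩ := Submodule.mem_span_singleton.1 hv
  rw [← MulOpposite.op_unop t]
  exact hstab t.unop w₀ hw₀Y

/-- **Main theorem.**  Let `R` be a von Neumann regular ring all of whose simple right modules are
generated by fewer than `2 ^ ℵ₀` elements over their endomorphism rings. If some Cantor-Bendixson
derivative of the Ziegler spectrum of `R` is empty then `R` is semiartinian. -/
theorem main (R : Type u) [Ring R] (hreg : ∀ a : R, ∃ x : R, a * x * a = a)
    (hsmall : SmallSimples R) (hCB : ∃ α : Ordinal.{u + 1}, cb (Zg R) α = ∅) :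
    Semiartinian.{u, v} R := by
  classical
  intro M _ _ hM
  by_cases htop : loewy Rᵐᵒᵖ = ⊤
  · exact exists_simple_of_loewy_eq_top htop M
  exfalso
  have hreg' : ∀ a : Rᵐᵒᵖ, ∃ x : Rᵐᵒᵖ, a * x * a = a := by
    intro a
    obtain ⟨x, hx⟩ := hreg a.unop
    refine ⟨MulOpposite.op x, MulOpposite.unop_injective ?_⟩
    simpa [mul_assoc] using hx
  set I : Ideal Rᵐᵒᵖ := loewy Rᵐᵒᵖ with hIdef
  have hI : NoAtom I := noAtom_loewy
  have hI2 : ∀ x ∈ I, ∀ r : Rᵐᵒᵖ, x * r ∈ I := fun x hx r => loewy_mul_mem hx r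
  -- hulls
  have hhull : ∀ P : Ideal Rᵐᵒᵖ, P.IsMaximal → I ≤ P → ∃ N : Point R,
      (∀ a ∈ I, ∀ n : N.carrier, a • n = 0) ∧ ∃ j : (Rᵐᵒᵖ ⧸ P) →ₗ[Rᵐᵒᵖ] N.carrier,
        Function.Injective j ∧ Ess (LinearMap.range j) ⊤ := by
    intro P hP hIP
    have : IsSimpleModule Rᵐᵒᵖ (Rᵐᵒᵖ ⧸ P) := isSimpleModule_iff_isCoatom.2 hP.out
    obtain ⟨N, _, _, j, h1, h2, h3⟩ := exists_indInj (R := Rᵐᵒᵖ) (Rᵐᵒᵖ ⧸ P)
    exact ⟨⟨N, h1⟩, fun a ha n => hull_annihilated hreg' I hI2 P hIP j h3 a ha n, j, h2, h3⟩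
  let 𝒮 : Set (Zg R) := {x | ∃ N : Point R, Zg.mk N = x ∧ ∀ a ∈ I, ∀ n : N.carrier, a • n = 0}
  have h𝒮 : 𝒮.Nonempty := by
    obtain ⟨P, hP, hIP⟩ := Ideal.exists_le_maximal I htop
    obtain ⟨N, hN, -⟩ := hhull P hP hIP
    exact ⟨Zg.mk N, N, rfl, hN⟩
  obtain ⟨α, hα⟩ := hCB
  obtain ⟨x₀, hx₀, U, hU, hUx⟩ := exists_isolated hα 𝒮 h𝒮
  have hx₀U : x₀ ∈ U := by
    have : x₀ ∈ U ∩ 𝒮 := by rw [hUx]; rfl
    exact this.1
  obtain ⟨_, ⟨e, he, rfl⟩, hx₀e, heU⟩ := (isTopologicalBasis hreg).exists_subset_of_mem_open hx₀U hU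
  have huniq : ∀ x ∈ 𝒮, x ∈ basicOpen e → x = x₀ := by
    intro x hx hxe
    have : x ∈ U ∩ 𝒮 := ⟨heU hxe, hx⟩
    rwa [hUx] at this
  -- `e ∉ I`
  have heI : MulOpposite.op e ∉ I := by
    intro h
    obtain ⟨N, rfl, hN⟩ := hx₀
    obtain ⟨n, hn⟩ := (mem_basicOpen_mk N).1 hx₀e
    exact hn (hN _ h n)
  have hee : MulOpposite.op e * MulOpposite.op e = MulOpposite.op e := by
    rw [← MulOpposite.op_mul, he]
  -- one maximal ideal
  have hP₀ : ∃ P : Ideal Rᵐᵒᵖ, P.IsMaximal ∧ I ≤ P ∧ ∃ w : Rᵐᵒᵖ ⧸ P, MulOpposite.op e • w ≠ 0 := by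
    have hne : I ⊔ Submodule.span Rᵐᵒᵖ {1 - MulOpposite.op e} ≠ ⊤ := by
      rw [Ideal.ne_top_iff_one]
      intro h1
      obtain ⟨a, ha, b, hb, hab⟩ := Submodule.mem_sup.1 h1
      obtain ⟨y, rfl⟩ := Submodule.mem_span_singleton.1 hb
      apply heI
      have h3 : (a + y • (1 - MulOpposite.op e)) * MulOpposite.op e = 1 * MulOpposite.op e := by
        rw [hab]
      rw [add_mul, smul_eq_mul, mul_assoc, sub_mul, one_mul, hee, sub_self, mul_zero,
        add_zero] at h3
      rw [← h3]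
      exact hI2 a ha _
    obtain ⟨P, hP, hIP⟩ := Ideal.exists_le_maximal _ hne
    refine ⟨P, hP, le_sup_left.trans hIP, Submodule.Quotient.mk 1, fun h0 => ?_⟩
    rw [← Submodule.Quotient.mk_smul, Submodule.Quotient.mk_eq_zero, smul_eq_mul, mul_one] at h0
    have h1 : (1 - MulOpposite.op e) ∈ P :=
      hIP (Submodule.mem_sup_right (Submodule.mem_span_singleton_self _))
    have := P.add_mem h1 h0
    rw [sub_add_cancel] at this
    exact (Ideal.ne_top_iff_one P).1 hP.ne_top this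
  obtain ⟨P₀, hP₀m, hIP₀, hw₀⟩ := hP₀
  have hsimple : IsSimpleModule Rᵐᵒᵖ (Rᵐᵒᵖ ⧸ P₀) := isSimpleModule_iff_isCoatom.2 hP₀m.out
  -- all hulls agree
  have hmemS : ∀ (P : Ideal Rᵐᵒᵖ) (N : Point R) (j : (Rᵐᵒᵖ ⧸ P) →ₗ[Rᵐᵒᵖ] N.carrier),
      (∀ a ∈ I, ∀ n : N.carrier, a • n = 0) → Function.Injective j →
      (∃ w : Rᵐᵒᵖ ⧸ P, MulOpposite.op e • w ≠ 0) → Zg.mk N = x₀ := by
    intro P N j hN hj hw
    obtain ⟨w, hw⟩ := hw
    refine huniq _ ⟨N, rfl, hN⟩ ((mem_basicOpen_mk N).2 ⟨j w, fun h0 => hw (hj ?_)⟩)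
    rw [map_smul, h0, map_zero]
  obtain ⟨N₀, hN₀, j₀, hj₀, hj₀'⟩ := hhull P₀ hP₀m hIP₀
  have hN₀x := hmemS P₀ N₀ j₀ hN₀ hj₀ hw₀
  obtain ⟨vv, hvv⟩ := exists_independent hreg' I hI2 hI (MulOpposite.op e) hee heI (Rᵐᵒᵖ ⧸ P₀) (by
    intro P hP hIP hw
    obtain ⟨N, hN, j, hj, hj'⟩ := hhull P hP hIP
    have hNx := hmemS P N j hN hj hw
    have : IsSimpleModule Rᵐᵒᵖ (Rᵐᵒᵖ ⧸ P) := isSimpleModule_iff_isCoatom.2 hP.out
    obtain ⟨φ⟩ : Nonempty (N.carrier ≃ₗ[Rᵐᵒᵖ] N₀.carrier) := Quotient.exact (hNx.trans hN₀x.symm)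
    exact simple_iso_of_hull_iso j hj j₀ hj₀ hj₀' φ)
  -- upper bound for the dimension
  set V := Rᵐᵒᵖ ⧸ P₀ with hV
  obtain ⟨W, hW, hspan⟩ := hsmall V
  have hrank : Module.rank (Module.End Rᵐᵒᵖ V) V ≤ #W := by
    rw [← rank_top, ← hspan]
    exact rank_span_le W
  have hlow := hvv.cardinal_lift_le_rank
  have h1 : lift.{u} #(ℕ → Bool) = (𝔠 : Cardinal.{u}) := by
    rw [← power_def, mk_bool, mk_nat, two_power_aleph0, lift_continuum]
  rw [h1, lift_id'.{0, u}] at hlow
  exact absurd ((hlow.trans hrank).trans_lt hW) (lt_irrefl _)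

end

end Pool.Agent.H36.KG
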