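import Pool.Agent.H36.KG.Hull

/-! # Socle-free quotients of regular rings, trees of idempotents, independent vectors -/

set_option autoImplicit false

universe u v

namespace Pool.Agent.H36.KG

open Cardinal

variable {R : Type u} [Ring R]

/-- no left ideal covers `K`, i.e. `R ⧸ K` has zero socle -/
def NoAtom (K : Ideal R) : Prop := ∀ L : Ideal R, K < L → ∃ L' : Ideal R, K < L' ∧ L' < L

/-- the smallest left ideal with socle-free quotient -/
noncomputable def loewy (R : Type u) [Ring R] : Ideal R := sInf {K : Ideal R | NoAtom K}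

theorem noAtom_loewy : NoAtom (loewy R) := by
  intro K hK
  by_contra hcon
  push Not at hcon
  obtain ⟨x, hxK, hx⟩ := SetLike.exists_of_lt hK
  have h1 : ∃ K₀ : Ideal R, NoAtom K₀ ∧ x ∉ K₀ := by
    by_contra h
    push Not at h
    apply hx
    unfold loewy
    rw [Submodule.mem_sInf]
    exact fun p hp => h p hp
  obtain ⟨K₀, hK₀, hx₀⟩ := h1
  have hI : loewy R ≤ K₀ := sInf_le hK₀
  have hlt : K₀ < K₀ ⊔ K := by
    refine lt_of_le_of_ne le_sup_left fun h => hx₀ ?_
    rw [h]
    exact Submodule.mem_sup_right hxK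
  obtain ⟨L, hL1, hL2⟩ := hK₀ _ hlt
  have h2 : ¬ K ≤ L := fun h => absurd (sup_le hL1.le h) (not_le_of_gt hL2)
  have h3 : L ⊓ K < K := lt_of_le_of_ne inf_le_right fun h => h2 (inf_eq_right.1 h)
  have h4 : loewy R ≤ L ⊓ K := le_inf (hI.trans hL1.le) hK.le
  have h5 : L ⊓ K = loewy R := by
    by_contra h
    exact hcon _ (lt_of_le_of_ne h4 (Ne.symm h)) h3
  have h6 : L = K₀ := by
    apply le_antisymm _ hL1.le
    intro y hy
    have h7 : y ∈ K₀ ⊔ K := hL2.le hy
    obtain ⟨a, ha, b, hb, rfl⟩ := Submodule.mem_sup.1 h7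
    have hbL : b ∈ L := by
      have := L.sub_mem hy (hL1.le ha)
      simpa using this
    have hb2 : b ∈ L ⊓ K := ⟨hbL, hb⟩
    rw [h5] at hb2
    exact K₀.add_mem ha (hI hb2)
  exact absurd hL1 (by rw [h6]; exact lt_irrefl _)

theorem loewy_mul_mem {x : R} (hx : x ∈ loewy R) (r : R) : x * r ∈ loewy R := by
  unfold loewy
  rw [Submodule.mem_sInf]
  intro K hK
  -- right multiplication by `r`
  let φ : R →ₗ[R] R := LinearMap.toSpanSingleton R R r
  have hφ : ∀ x, φ x = x * r := fun x => by simp [φ]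
  have hc : NoAtom (Submodule.comap φ K) := by
    intro K' hK'
    have hlt : K < K ⊔ Submodule.map φ K' := by
      obtain ⟨y, hyK', hy⟩ := SetLike.exists_of_lt hK'
      refine lt_of_le_of_ne le_sup_left fun h => hy ?_
      rw [Submodule.mem_comap, h]
      exact Submodule.mem_sup_right ⟨y, hyK', rfl⟩
    obtain ⟨L, hL1, hL2⟩ := hK _ hlt
    refine ⟨K' ⊓ Submodule.comap φ L, ?_, ?_⟩
    · refine lt_of_le_of_ne (le_inf hK'.le (Submodule.comap_mono hL1.le)) fun h => ?_
      obtain ⟨y, hyL, hy⟩ := SetLike.exists_of_lt hL1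
      obtain ⟨a, ha, b, hb, rfl⟩ := Submodule.mem_sup.1 (hL2.le hyL)
      obtain ⟨z, hz, rfl⟩ := hb
      have hzL : φ z ∈ L := by
        have := L.sub_mem hyL (hL1.le ha)
        simpa using this
      have hz2 : z ∈ K' ⊓ Submodule.comap φ L := ⟨hz, hzL⟩
      rw [← h] at hz2
      exact hy (K.add_mem ha hz2)
    · refine lt_of_le_of_ne inf_le_left fun h => ?_
      have h1 : K' ≤ Submodule.comap φ L := inf_eq_left.1 h
      exact absurd (sup_le hL1.le (Submodule.map_le_iff_le_comap.2 h1)) (not_le_of_gt hL2)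
  have h1 : x ∈ Submodule.comap φ K := by
    have := hx
    unfold loewy at this
    rw [Submodule.mem_sInf] at this
    exact this _ hc
  rw [Submodule.mem_comap, hφ] at h1
  exact h1

/-- If the only left ideal with socle-free quotient is the whole ring then every nonzero module
contains a simple submodule. -/
theorem exists_simple_of_loewy_eq_top (h : loewy R = ⊤) (M : Type v) [AddCommGroup M] [Module R M]
    [Nontrivial M] : ∃ S : Submodule R M, IsSimpleModule R S := by
  obtain ⟨x, hx⟩ := exists_ne (0 : M)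
  let φ : R →ₗ[R] M := LinearMap.toSpanSingleton R M x
  have hK : ¬ NoAtom (LinearMap.ker φ) := by
    intro hK
    have h1 : loewy R ≤ LinearMap.ker φ := sInf_le hK
    rw [h] at h1
    have h2 : (1 : R) ∈ LinearMap.ker φ := h1 trivial
    rw [LinearMap.mem_ker] at h2
    exact hx (by simpa [φ] using h2)
  unfold NoAtom at hK
  push Not at hK
  obtain ⟨K', hK', hcov⟩ := hK
  refine ⟨Submodule.map φ K', ?_⟩
  rw [isSimpleModule_iff_isAtom]
  refine ⟨?_, fun b hb => ?_⟩
  · intro h0
    obtain ⟨y, hyK', hy⟩ := SetLike.exists_of_lt hK'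
    have h1 : φ y ∈ Submodule.map φ K' := ⟨y, hyK', rfl⟩
    rw [h0] at h1
    exact hy ((Submodule.mem_bot R).1 h1)
  · have h1 : LinearMap.ker φ ≤ K' ⊓ Submodule.comap φ b := by
      refine le_inf hK'.le fun y hy => ?_
      rw [Submodule.mem_comap, LinearMap.mem_ker.1 hy]
      exact b.zero_mem
    have h2 : K' ⊓ Submodule.comap φ b < K' := by
      refine lt_of_le_of_ne inf_le_left fun h => ?_
      exact absurd (Submodule.map_le_iff_le_comap.2 (inf_eq_left.1 h)) (not_le_of_gt hb)
    have h3 : LinearMap.ker φ = K' ⊓ Submodule.comap φ b := by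
      by_contra hne
      exact hcov _ (lt_of_le_of_ne h1 hne) h2
    rw [eq_bot_iff]
    intro y hy
    obtain ⟨z, hz, rfl⟩ := hb.le hy
    have : z ∈ LinearMap.ker φ := by rw [h3]; exact ⟨hz, hy⟩
    rw [LinearMap.mem_ker.1 this]
    exact Submodule.zero_mem _

section Tree

variable (hreg : ∀ a : R, ∃ x : R, a * x * a = a) (I : Ideal R)
  (hI2 : ∀ x ∈ I, ∀ r : R, x * r ∈ I) (hI : NoAtom I)

include hreg hI2 hI in
/-- splitting an idempotent modulo `I` -/
theorem exists_split (e : R) (he : e * e = e) (heI : e ∉ I) :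
    ∃ f : R, f * f = f ∧ e * f = f ∧ f * e = f ∧ f ∉ I ∧ e - f ∉ I := by
  have hlt : I < I ⊔ Submodule.span R {e} := by
    refine lt_of_le_of_ne le_sup_left fun h => heI ?_
    rw [h]
    exact Submodule.mem_sup_right (Submodule.mem_span_singleton_self e)
  obtain ⟨L, hL1, hL2⟩ := hI _ hlt
  obtain ⟨a', ha'L, ha'I⟩ := SetLike.exists_of_lt hL1
  obtain ⟨b, hb, a, ha, rfl⟩ := Submodule.mem_sup.1 (hL2.le ha'L)
  obtain ⟨y, rfl⟩ := Submodule.mem_span_singleton.1 ha
  rw [smul_eq_mul] at *
  have haL : y * e ∈ L := by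
    have := L.sub_mem ha'L (hL1.le hb)
    simpa using this
  have haI : y * e ∉ I := fun h => ha'I (I.add_mem hb h)
  obtain ⟨x, hx⟩ := hreg (y * e)
  set a := y * e with ha_def
  have hae : a * e = a := by rw [ha_def, mul_assoc, he]
  set f := x * a with hf
  have hff : f * f = f := by
    rw [hf, mul_assoc, ← mul_assoc a x a, hx]
  have hfe : f * e = f := by rw [hf, mul_assoc, hae]
  have haf : a * f = a := by rw [hf, ← mul_assoc, hx]
  refine ⟨e * f, ?_, ?_, ?_, ?_, ?_⟩
  · rw [mul_assoc, ← mul_assoc f e f, hfe, hff]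
  · rw [← mul_assoc, he]
  · rw [mul_assoc, hfe]
  · intro h
    apply haI
    have h1 : a * (e * f) = a := by rw [← mul_assoc, hae, haf]
    rw [← h1]
    exact I.mul_mem_left a h
  · intro h
    have h1 : e ∈ L := by
      have h2 : e * f ∈ L := by
        rw [hf, ← mul_assoc]
        exact L.mul_mem_left _ haL
      have := L.add_mem (hL1.le h) h2
      simpa using this
    have h3 : I ⊔ Submodule.span R {e} ≤ L := by
      refine sup_le hL1.le ?_
      rw [Submodule.span_singleton_le_iff_mem]
      exact h1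
    exact absurd h3 (not_le_of_gt hL2)

/-- idempotents outside `I` -/
abbrev Idem (I : Ideal R) : Type u := {e : R // e * e = e ∧ e ∉ I}

include hreg hI2 hI in
theorem exists_tree (e : Idem I) : ∃ E : List Bool → Idem I, E [] = e ∧
    ∀ (σ : List Bool), (∀ b, (E σ).1 * (E (b :: σ)).1 = (E (b :: σ)).1 ∧
      (E (b :: σ)).1 * (E σ).1 = (E (b :: σ)).1) ∧
      (E (true :: σ)).1 * (E (false :: σ)).1 = 0 ∧ (E (false :: σ)).1 * (E (true :: σ)).1 = 0 := by
  classical
  have hsplit : ∀ e : Idem I, ∃ p : Bool → Idem I, (∀ b, e.1 * (p b).1 = (p b).1 ∧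
      (p b).1 * e.1 = (p b).1) ∧ (p true).1 * (p false).1 = 0 ∧ (p false).1 * (p true).1 = 0 := by
    intro e
    obtain ⟨f, h1, h2, h3, h4, h5⟩ := exists_split hreg I hI2 hI e.1 e.2.1 e.2.2
    have h6 : (e.1 - f) * (e.1 - f) = e.1 - f := by
      rw [mul_sub, sub_mul, sub_mul, e.2.1, h1, h2, h3]; abel
    refine ⟨fun b => cond b ⟨f, h1, h4⟩ ⟨e.1 - f, h6, h5⟩, ?_, ?_, ?_⟩
    · intro b
      cases b
      · show e.1 * (e.1 - f) = e.1 - f ∧ (e.1 - f) * e.1 = e.1 - f
        rw [mul_sub, sub_mul, e.2.1, h2, h3]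
        exact ⟨rfl, rfl⟩
      · exact ⟨h2, h3⟩
    · show f * (e.1 - f) = 0
      rw [mul_sub, h3, h1, sub_self]
    · show (e.1 - f) * f = 0
      rw [sub_mul, h2, h1, sub_self]
  choose p hp1 hp2 hp3 using hsplit
  let E : List Bool → Idem I := fun σ => σ.rec e (fun b _ x => p x b)
  exact ⟨E, rfl, fun σ => ⟨fun b => hp1 (E σ) b, hp2 (E σ), hp3 (E σ)⟩⟩

end Tree

/-- the first `n` values of `β`, latest first -/
def pre (β : ℕ → Bool) : ℕ → List Bool
  | 0 => []
  | n + 1 => β n :: pre β n

/-- **Main step.** If all simple modules on which `I` acts as zero and `e` does not act as zero are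
isomorphic to `V` then `V` contains continuum many vectors that are independent over its
endomorphism ring. -/
theorem exists_independent (hreg : ∀ a : R, ∃ x : R, a * x * a = a) (I : Ideal R)
    (hI2 : ∀ x ∈ I, ∀ r : R, x * r ∈ I) (hI : NoAtom I) (e : R) (he : e * e = e) (heI : e ∉ I)
    (V : Type u) [AddCommGroup V] [Module R V] [IsSimpleModule R V]
    (hV : ∀ M : Ideal R, M.IsMaximal → I ≤ M → (∃ w : R ⧸ M, e • w ≠ 0) →
      Nonempty ((R ⧸ M) ≃ₗ[R] V)) :
    ∃ v : (ℕ → Bool) → V, LinearIndependent (Module.End R V) v := by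
  classical
  obtain ⟨E, hE0, hE⟩ := exists_tree hreg I hI2 hI ⟨e, he, heI⟩
  -- the chain along a branch
  have hdesc : ∀ (β : ℕ → Bool) (n k : ℕ), (E (pre β n)).1 * (E (pre β (n + k))).1
      = (E (pre β (n + k))).1 ∧ (E (pre β (n + k))).1 * (E (pre β n)).1 = (E (pre β (n + k))).1 := by
    intro β n k
    induction k with
    | zero => exact ⟨(E (pre β n)).2.1, (E (pre β n)).2.1⟩
    | succ k ih =>
      obtain ⟨h1, h2⟩ := (hE (pre β (n + k))).1 (β (n + k))
      have h3 : pre β (n + (k + 1)) = β (n + k) :: pre β (n + k) := rfl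
      rw [h3]
      constructor
      · rw [← h1, ← mul_assoc, ih.1]
      · conv_lhs => rw [← h2]
        rw [mul_assoc, ih.2, h2]
  -- orthogonality of different branches
  have horth : ∀ (n : ℕ) (β γ : ℕ → Bool), pre β n ≠ pre γ n →
      (E (pre β n)).1 * (E (pre γ n)).1 = 0 := by
    intro n
    induction n with
    | zero => intro β γ h; exact absurd rfl h
    | succ n ih =>
      intro β γ h
      obtain ⟨h1, h2⟩ := (hE (pre β n)).1 (β n)
      obtain ⟨h3, h4⟩ := (hE (pre γ n)).1 (γ n)
      show (E (β n :: pre β n)).1 * (E (γ n :: pre γ n)).1 = 0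
      by_cases hpre : pre β n = pre γ n
      · have hne : β n ≠ γ n := by
          intro h'
          apply h
          show β n :: pre β n = γ n :: pre γ n
          rw [hpre, h']
        rw [hpre]
        obtain ⟨h5, h6⟩ := (hE (pre γ n)).2
        cases hb : β n <;> cases hc : γ n
        · rw [hb, hc] at hne; exact absurd rfl hne
        · exact h6
        · exact h5
        · rw [hb, hc] at hne; exact absurd rfl hne
      · rw [← h2, ← h3, mul_assoc, ← mul_assoc (E (pre β n)).1, ih β γ hpre, zero_mul, mul_zero]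
  -- vectors
  have hvec : ∀ β : ℕ → Bool, ∃ v : V, v ≠ 0 ∧ ∀ n, (E (pre β n)).1 • v = v := by
    intro β
    let J : ℕ → Ideal R := fun n => I ⊔ Submodule.span R {1 - (E (pre β n)).1}
    have hJmono : Monotone J := by
      refine monotone_nat_of_le_succ fun n => ?_
      refine sup_le le_sup_left ?_
      rw [Submodule.span_singleton_le_iff_mem]
      refine Submodule.mem_sup_right (Submodule.mem_span_singleton.2 ⟨1 - (E (pre β n)).1, ?_⟩)
      have := (hdesc β n 1).1
      rw [smul_eq_mul, mul_sub, mul_one, sub_mul, one_mul, this]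
      abel
    have hJne : ∀ n, (1 : R) ∉ J n := by
      intro n h1
      obtain ⟨a, ha, b, hb, hab⟩ := Submodule.mem_sup.1 h1
      obtain ⟨y, rfl⟩ := Submodule.mem_span_singleton.1 hb
      have h2 : (E (pre β n)).1 = a * (E (pre β n)).1 := by
        have h3 : (a + y • (1 - (E (pre β n)).1)) * (E (pre β n)).1 = 1 * (E (pre β n)).1 := by
          rw [hab]
        rw [add_mul, smul_eq_mul, mul_assoc, sub_mul, one_mul, (E (pre β n)).2.1, sub_self,
          mul_zero, add_zero] at h3
        exact h3.symm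
      apply (E (pre β n)).2.2
      rw [h2]
      exact hI2 a ha _
    have hne : (⨆ n, J n) ≠ ⊤ := by
      rw [Ideal.ne_top_iff_one, Submodule.mem_iSup_of_directed J hJmono.directed_le]
      rintro ⟨n, hn⟩
      exact hJne n hn
    obtain ⟨M, hM, hJM⟩ := Ideal.exists_le_maximal _ hne
    have hIM : I ≤ M := le_trans (le_trans le_sup_left (le_iSup J 0)) hJM
    have hfix : ∀ n, (E (pre β n)).1 • (Submodule.Quotient.mk 1 : R ⧸ M) = Submodule.Quotient.mk 1 := by
      intro n
      rw [← Submodule.Quotient.mk_smul, smul_eq_mul, mul_one, eq_comm, Submodule.Quotient.eq]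
      exact hJM ((le_iSup J n) (Submodule.mem_sup_right (Submodule.mem_span_singleton_self _)))
    have hw0 : (Submodule.Quotient.mk 1 : R ⧸ M) ≠ 0 := by
      rw [Ne, Submodule.Quotient.mk_eq_zero]
      exact (Ideal.ne_top_iff_one M).1 hM.ne_top
    have hew : e • (Submodule.Quotient.mk 1 : R ⧸ M) ≠ 0 := by
      have h1 : (E (pre β 0)).1 = e := by
        show (E []).1 = e
        rw [hE0]
      have h2 := hfix 0
      rw [h1] at h2
      rw [h2]
      exact hw0
    obtain ⟨φ⟩ := hV M hM hIM ⟨_, hew⟩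
    refine ⟨φ (Submodule.Quotient.mk 1), fun h => hw0 ?_, fun n => ?_⟩
    · exact (map_eq_zero_iff φ φ.injective).1 h
    · rw [← map_smul, hfix n]
  choose v hv0 hv using hvec
  refine ⟨v, ?_⟩
  rw [linearIndependent_iff']
  intro s g hsum β hβ
  -- separate `β` from the other branches of `s`
  have hsep : ∃ n, ∀ γ ∈ s, γ ≠ β → pre β n ≠ pre γ n := by
    have hone : ∀ γ : ℕ → Bool, γ ≠ β → ∃ n, ∀ m, n ≤ m → pre β m ≠ pre γ m := by
      intro γ hγ
      obtain ⟨k, hk⟩ := Function.ne_iff.1 hγ
      refine ⟨k + 1, fun m hm => ?_⟩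
      induction m with
      | zero => omega
      | succ m ih =>
        intro h
        have h' : β m :: pre β m = γ m :: pre γ m := h
        rw [List.cons.injEq] at h'
        rcases Nat.lt_or_ge k m with hlt | hge
        · exact ih (by omega) h'.2
        · have : k = m := by omega
          subst this
          exact hk h'.1.symm
    choose! N hN using hone
    refine ⟨s.sup N, fun γ hγ hne => hN γ hne _ (Finset.le_sup hγ)⟩
  obtain ⟨n, hn⟩ := hsep
  have h1 : (E (pre β n)).1 • (∑ γ ∈ s, g γ • v γ) = g β • v β := by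
    rw [Finset.smul_sum, Finset.sum_eq_single β]
    · show (E (pre β n)).1 • (g β) (v β) = (g β) (v β)
      rw [← map_smul, hv]
    · intro γ hγ hne
      show (E (pre β n)).1 • (g γ) (v γ) = 0
      rw [← map_smul]
      have : (E (pre β n)).1 • v γ = 0 := by
        rw [← hv γ n, ← mul_smul, horth n β γ (hn γ hγ hne), zero_smul]
      rw [this, map_zero]
    · intro h; exact absurd hβ h
  rw [hsum, smul_zero] at h1
  rcases LinearMap.bijective_or_eq_zero (g β) with h2 | h2
  · exfalso
    apply hv0 β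
    apply h2.1
    rw [map_zero]
    exact h1.symm
  · exact h2

end Pool.Agent.H36.KG
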